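import Mathlib

set_option autoImplicit false
set_option maxHeartbeats 4000000

namespace Pool.Agent.Results.MP_e3c312_co.CuspSymmetry

open scoped Topology unitInterval

/-- Euclidean `d`-space. -/
abbrev E (d : ℕ) : Type := EuclideanSpace ℝ (Fin d)

/-- The placements `q` of the vertices having the same edge lengths as the placement `p`. -/
abbrev Realization {V : Type} {d : ℕ} (G : SimpleGraph V) (p : V → E d) : Type :=
  {q : V → E d // ∀ i j, G.Adj i j → dist (q i) (q j) = dist (p i) (p j)}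

/-- Two placements are identified when a Euclidean isometry maps one onto the other. -/
def congruence {V : Type} {d : ℕ} (G : SimpleGraph V) (p : V → E d) :
    Setoid (Realization G p) where
  r q q' := ∃ T : E d ≃ᵢ E d, ∀ i, q'.1 i = T (q.1 i)
  iseqv :=
    { refl := fun q => ⟨IsometryEquiv.refl _, fun _ => rfl⟩
      symm := by
        rintro q q' ⟨T, h⟩
        exact ⟨T.symm, fun i => by rw [h i, T.symm_apply_apply]⟩
      trans := by
        rintro q q' q'' ⟨T, h⟩ ⟨T', h'⟩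
        exact ⟨T.trans T', fun i => by rw [h' i, h i]; rfl⟩ }

/-- The space `C` of placements with the edge lengths of `p`, modulo Euclidean isometries,
with the quotient topology. -/
abbrev ConfigSpace {V : Type} {d : ℕ} (G : SimpleGraph V) (p : V → E d) : Type :=
  Quotient (congruence G p)

/-- The class of a placement. -/
def cls {V : Type} {d : ℕ} (G : SimpleGraph V) (p : V → E d) (q : Realization G p) :
    ConfigSpace G p := Quotient.mk (congruence G p) q

/-- The placement `p` itself. -/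
def self {V : Type} {d : ℕ} (G : SimpleGraph V) (p : V → E d) : Realization G p :=
  ⟨p, fun _ _ _ => rfl⟩

/-- A neighbourhood `U` of the class `[p]` in `C` with a homeomorphism onto the open interval
`(-1, 1)` that sends `[p]` to `0`. The two half-branches are the parts of `U` sent to
`(0, 1)` and to `(-1, 0)`. -/
structure IntervalChart {V : Type} {d : ℕ} (G : SimpleGraph V) (p : V → E d) where
  U : Set (ConfigSpace G p)
  nhd : U ∈ 𝓝 (cls G p (self G p))
  φ : U ≃ₜ Set.Ioo (-1 : ℝ) 1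
  center : (φ ⟨cls G p (self G p), mem_of_mem_nhds nhd⟩ : ℝ) = 0

/-- The coordinate in `(-1, 1)` of a class that lies in the chart. -/
def IntervalChart.coord {V : Type} {d : ℕ} {G : SimpleGraph V} {p : V → E d}
    (K : IntervalChart G p) (c : ConfigSpace G p) (h : c ∈ K.U) : ℝ :=
  (K.φ ⟨c, h⟩ : ℝ)

/-- One-degree-of-freedom mechanism: some neighbourhood of `[p]` in `C` is homeomorphic to an
open interval. -/
def IsOneDOF {V : Type} {d : ℕ} (G : SimpleGraph V) (p : V → E d) : Prop :=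
  Nonempty (IntervalChart G p)

/-- A motion of `(G, p)`: a continuous path of placements with the edge lengths of `p`,
starting at `p`, over the time interval `[0, 1]`. -/
def IsMotion {V : Type} {d : ℕ} (G : SimpleGraph V) (p : V → E d)
    (P : I → Realization G p) : Prop :=
  Continuous P ∧ P 0 = self G p

/-- Expansive: no distance between two vertices ever decreases, and some distance changes. -/
def IsExpansive {V : Type} {d : ℕ} {G : SimpleGraph V} {p : V → E d}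
    (P : I → Realization G p) : Prop :=
  (∀ i j, Monotone fun t => dist ((P t).1 i) ((P t).1 j)) ∧
    ∃ i j s t, dist ((P s).1 i) ((P s).1 j) ≠ dist ((P t).1 i) ((P t).1 j)

/-- The classes `[P t]` trace one half-branch injectively, starting at `[p]`: they are pairwise
distinct, stay in a chart, and for `t > 0` stay on one side of `[p]`. -/
def TracesHalfBranch {V : Type} {d : ℕ} {G : SimpleGraph V} {p : V → E d}
    (P : I → Realization G p) : Prop :=
  Function.Injective (fun t => cls G p (P t)) ∧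
    ∃ (K : IntervalChart G p) (h : ∀ t, cls G p (P t) ∈ K.U),
      (∀ t : I, 0 < t → 0 < K.coord _ (h t)) ∨ (∀ t : I, 0 < t → K.coord _ (h t) < 0)

/-- An expansive motion of a one-degree-of-freedom mechanism. -/
def IsExpansiveMotion {V : Type} {d : ℕ} (G : SimpleGraph V) (p : V → E d)
    (P : I → Realization G p) : Prop :=
  IsMotion G p P ∧ IsExpansive P ∧ TracesHalfBranch P

/-- The group of isometries of Euclidean `d`-space, under composition. -/
def Isom (d : ℕ) : Type := E d ≃ᵢ E d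

noncomputable instance (d : ℕ) : Group (Isom d) := inferInstanceAs (Group (E d ≃ᵢ E d))

/-- The image of a point under an isometry. -/
def Isom.app {d : ℕ} (T : Isom d) (x : E d) : E d := IsometryEquiv.toEquiv T x

/-- The automorphism group of the graph `G`, under composition. -/
def GraphAut {V : Type} (G : SimpleGraph V) : Type := G ≃g G

instance {V : Type} (G : SimpleGraph V) : Group (GraphAut G) := inferInstanceAs (Group (G ≃g G))

/-- The image of a vertex under an automorphism. -/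
def GraphAut.app {V : Type} {G : SimpleGraph V} (a : GraphAut G) (i : V) : V :=
  RelIso.toEquiv a i

/-- The placement `q` is symmetric with respect to the group `Γ` of isometries and the
homomorphism `θ` from `Γ` to the automorphism group of `G`. -/
def IsSymmetric {V : Type} {d : ℕ} {G : SimpleGraph V} (Γ : Subgroup (Isom d))
    (θ : Γ →* GraphAut G) (q : V → E d) : Prop :=
  ∀ (γ : Γ) (i : V), Isom.app γ.1 (q i) = q (GraphAut.app (θ γ) i)

/-- The motion `P` preserves the symmetry `(Γ, θ)`: isometries `T t`, depending continuously on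
`t` with `T 0` the identity, make every `P t` symmetric. -/
def PreservesSymmetry {V : Type} {d : ℕ} {G : SimpleGraph V} {p : V → E d}
    (Γ : Subgroup (Isom d)) (θ : Γ →* GraphAut G) (P : I → Realization G p) : Prop :=
  ∃ T : I → (E d ≃ᵢ E d), T 0 = IsometryEquiv.refl (E d) ∧ (∀ x, Continuous fun t => T t x) ∧
    ∀ t, IsSymmetric Γ θ (fun i => T t ((P t).1 i))

/-- The points of the placement do not all lie in one hyperplane `n · x = c`, `n ≠ 0`. -/
def IsSpanning {V : Type} {d : ℕ} (p : V → E d) : Prop :=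
  ∀ (n : Fin d → ℝ) (c : ℝ), (∀ i, ∑ k, n k * p i k = c) → n = 0

open scoped RealInnerProductSpace

/-- point with given coordinates -/
noncomputable def pt (a b c : ℝ) : E 3 := WithLp.toLp 2 ![a, b, c]

theorem pt_eta (v : E 3) : v = pt (v 0) (v 1) (v 2) := by
  ext i
  fin_cases i <;> simp [pt]

theorem dist_sq (u v : E 3) :
    dist u v ^ 2 = (u 0 - v 0) ^ 2 + (u 1 - v 1) ^ 2 + (u 2 - v 2) ^ 2 := by
  rw [EuclideanSpace.dist_eq, Real.sq_sqrt (Finset.sum_nonneg fun i _ => sq_nonneg _)]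
  simp [Fin.sum_univ_three, Real.dist_eq, sq_abs]

theorem pt_dist_sq (a b c a' b' c' : ℝ) :
    dist (pt a b c) (pt a' b' c') ^ 2 = (a - a') ^ 2 + (b - b') ^ 2 + (c - c') ^ 2 := by
  rw [dist_sq]; simp [pt]

noncomputable section

/-- the seven points in terms of the parameters -/
def conf (X P s z my mw mz : ℝ) : Fin 7 → E 3 :=
  ![pt 0 0 0, pt s 0 z, pt s 0 (-z), pt 0 6 0,
    pt P (3 - X) 0, pt (-15 * P) (15 * (3 - X)) 0, pt mw my mz]

structure Rel (X P s z my mw mz : ℝ) : Prop where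
  hP : P ^ 2 = 16 + 6 * X - X ^ 2
  hs : s * P = 4
  hz : z ^ 2 * P ^ 2 = 16 + 12 * X - 2 * X ^ 2
  hy : my * (1 + 5 * X) = -5
  hw : mw * P * (1 + 5 * X) = 80 + 470 * X
  hm : mz ^ 2 * (1 + 5 * X) ^ 2 * P ^ 2 = 25 * X ^ 3 * (2728 - 485 * X)
  P0 : 0 < P
  z0 : 0 < z
  X0 : 0 < 1 + 5 * X

theorem Rel.hA {X P s z my mw mz : ℝ} (h : Rel X P s z my mw mz) : s ^ 2 + z ^ 2 = 2 := by
  have h2 : P ^ 2 ≠ 0 := pow_ne_zero _ h.P0.ne'
  apply mul_right_cancel₀ h2
  linear_combination (s * P + 4) * h.hs + h.hz - 2 * h.hP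

theorem Rel.hC {X P s z my mw mz : ℝ} (h : Rel X P s z my mw mz) :
    P * mw = 95 + (3 + X) * my := by
  apply mul_right_cancel₀ h.X0.ne'
  linear_combination h.hw - (3 + X) * h.hy

theorem Rel.hB {X P s z my mw mz : ℝ} (h : Rel X P s z my mw mz) :
    mw ^ 2 + my ^ 2 + mz ^ 2 = 485 + 12 * my := by
  have h2 : P ^ 2 * (1 + 5 * X) ^ 2 ≠ 0 :=
    mul_ne_zero (pow_ne_zero _ h.P0.ne') (pow_ne_zero _ h.X0.ne')
  apply mul_right_cancel₀ h2
  linear_combination (mw * P * (1 + 5 * X) + 80 + 470 * X) * h.hw + h.hm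
    + P ^ 2 * (my * (1 + 5 * X) - 5 - 12 * (1 + 5 * X)) * h.hy
    + (25 - 485 * (1 + 5 * X) ^ 2 + 60 * (1 + 5 * X)) * h.hP

def edgeB (i j : Fin 7) : Bool :=
  (i == 0 && (j == 1 || j == 2)) || ((i == 0 || i == 1 || i == 2 || i == 6) && (j == 3 || j == 4 || j == 5))

theorem Rel.edges {X P s z my mw mz : ℝ} (h : Rel X P s z my mw mz) :
    dist (conf X P s z my mw mz 0) (conf X P s z my mw mz 1) ^ 2 = 2 ∧
    dist (conf X P s z my mw mz 0) (conf X P s z my mw mz 2) ^ 2 = 2 ∧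
    dist (conf X P s z my mw mz 0) (conf X P s z my mw mz 3) ^ 2 = 36 ∧
    dist (conf X P s z my mw mz 0) (conf X P s z my mw mz 4) ^ 2 = 25 ∧
    dist (conf X P s z my mw mz 0) (conf X P s z my mw mz 5) ^ 2 = 5625 ∧
    dist (conf X P s z my mw mz 1) (conf X P s z my mw mz 3) ^ 2 = 38 ∧
    dist (conf X P s z my mw mz 1) (conf X P s z my mw mz 4) ^ 2 = 19 ∧
    dist (conf X P s z my mw mz 1) (conf X P s z my mw mz 5) ^ 2 = 5747 ∧
    dist (conf X P s z my mw mz 2) (conf X P s z my mw mz 3) ^ 2 = 38 ∧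
    dist (conf X P s z my mw mz 2) (conf X P s z my mw mz 4) ^ 2 = 19 ∧
    dist (conf X P s z my mw mz 2) (conf X P s z my mw mz 5) ^ 2 = 5747 ∧
    dist (conf X P s z my mw mz 6) (conf X P s z my mw mz 3) ^ 2 = 521 ∧
    dist (conf X P s z my mw mz 6) (conf X P s z my mw mz 4) ^ 2 = 320 ∧
    dist (conf X P s z my mw mz 6) (conf X P s z my mw mz 5) ^ 2 = 8900 := by
  have hA := h.hA
  have hB := h.hB
  have hC := h.hC
  have hP := h.hP
  have hs := h.hs
  have hy := h.hy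
  refine ⟨?_, ?_, ?_, ?_, ?_, ?_, ?_, ?_, ?_, ?_, ?_, ?_, ?_, ?_⟩ <;>
    simp only [conf, Matrix.cons_val_zero, Matrix.cons_val_one, Matrix.cons_val, pt_dist_sq]
  · linear_combination hA
  · linear_combination hA
  · norm_num
  · linear_combination hP
  · linear_combination 225 * hP
  · linear_combination hA
  · linear_combination hA - 2 * hs + hP
  · linear_combination hA + 30 * hs + 225 * hP
  · linear_combination hA
  · linear_combination hA - 2 * hs + hP
  · linear_combination hA + 30 * hs + 225 * hP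
  · linear_combination hB
  · linear_combination hB - 2 * hC + hP
  · linear_combination hB + 30 * hC + 225 * hP + 12 * hy

theorem Rel.nonedges {X P s z my mw mz : ℝ} (h : Rel X P s z my mw mz) :
    dist (conf X P s z my mw mz 1) (conf X P s z my mw mz 2) ^ 2 = 4 * z ^ 2 ∧
    dist (conf X P s z my mw mz 3) (conf X P s z my mw mz 4) ^ 2 = 25 + 12 * X ∧
    dist (conf X P s z my mw mz 3) (conf X P s z my mw mz 5) ^ 2 = 5121 + 180 * X ∧
    dist (conf X P s z my mw mz 4) (conf X P s z my mw mz 5) ^ 2 = 4900 + 60 * P ^ 2 ∧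
    dist (conf X P s z my mw mz 0) (conf X P s z my mw mz 6) ^ 2 = 485 + 12 * my ∧
    dist (conf X P s z my mw mz 1) (conf X P s z my mw mz 6) ^ 2 =
      487 + 12 * my - 2 * (s * mw) - 2 * (z * mz) ∧
    dist (conf X P s z my mw mz 2) (conf X P s z my mw mz 6) ^ 2 =
      487 + 12 * my - 2 * (s * mw) + 2 * (z * mz) := by
  have hA := h.hA
  have hB := h.hB
  have hC := h.hC
  have hP := h.hP
  have hs := h.hs
  have hy := h.hy
  refine ⟨?_, ?_, ?_, ?_, ?_, ?_, ?_⟩ <;>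
    simp only [conf, Matrix.cons_val_zero, Matrix.cons_val_one, Matrix.cons_val, pt_dist_sq]
  · ring
  · linear_combination hP
  · linear_combination 225 * hP
  · linear_combination 196 * hP
  · linear_combination hB
  · linear_combination hA + hB
  · linear_combination hA + hB

/-- the domain -/
def Dom : Set ℝ := Set.Ioo (-(1 / 10)) (1 / 10)

theorem dom_X {x : ℝ} (hx : x ∈ Dom) : x ^ 2 < 1 / 100 := by
  obtain ⟨h1, h2⟩ := hx
  nlinarith

def fP (X : ℝ) : ℝ := Real.sqrt (16 + 6 * X - X ^ 2)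
def fs (X : ℝ) : ℝ := 4 / fP X
def fz (X : ℝ) : ℝ := Real.sqrt ((16 + 12 * X - 2 * X ^ 2) / (16 + 6 * X - X ^ 2))
def fy (X : ℝ) : ℝ := -5 / (1 + 5 * X)
def fw (X : ℝ) : ℝ := (80 + 470 * X) / (fP X * (1 + 5 * X))
def fm (x : ℝ) : ℝ :=
  5 * x ^ 3 * Real.sqrt ((2728 - 485 * x ^ 2) / (16 + 6 * x ^ 2 - (x ^ 2) ^ 2)) / (1 + 5 * x ^ 2)

def std (x : ℝ) : Fin 7 → E 3 :=
  conf (x ^ 2) (fP (x ^ 2)) (fs (x ^ 2)) (fz (x ^ 2)) (fy (x ^ 2)) (fw (x ^ 2)) (fm x)

theorem q_pos {X : ℝ} (h0 : 0 ≤ X) (h1 : X < 1 / 100) : 0 < 16 + 6 * X - X ^ 2 := by nlinarith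
theorem r_pos {X : ℝ} (h0 : 0 ≤ X) (h1 : X < 1 / 100) : 0 < 16 + 12 * X - 2 * X ^ 2 := by nlinarith

theorem fP_sq {X : ℝ} (h0 : 0 ≤ X) (h1 : X < 1 / 100) : fP X ^ 2 = 16 + 6 * X - X ^ 2 :=
  Real.sq_sqrt (q_pos h0 h1).le

theorem fP_pos {X : ℝ} (h0 : 0 ≤ X) (h1 : X < 1 / 100) : 0 < fP X := Real.sqrt_pos.2 (q_pos h0 h1)

theorem rel_std {x : ℝ} (hx : x ∈ Dom) :
    Rel (x ^ 2) (fP (x ^ 2)) (fs (x ^ 2)) (fz (x ^ 2)) (fy (x ^ 2)) (fw (x ^ 2)) (fm x) := by
  have h1 := dom_X hx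
  have h0 : 0 ≤ x ^ 2 := sq_nonneg x
  have hq := q_pos h0 h1
  have hr := r_pos h0 h1
  have hP := fP_sq h0 h1
  have hP0 := fP_pos h0 h1
  have hX : 0 < 1 + 5 * x ^ 2 := by positivity
  have hg : 0 < 2728 - 485 * x ^ 2 := by nlinarith
  have hsq : Real.sqrt ((2728 - 485 * x ^ 2) / (16 + 6 * x ^ 2 - (x ^ 2) ^ 2)) ^ 2 =
      (2728 - 485 * x ^ 2) / (16 + 6 * x ^ 2 - (x ^ 2) ^ 2) := Real.sq_sqrt (div_pos hg hq).le
  refine ⟨hP, ?_, ?_, ?_, ?_, ?_, hP0, ?_, hX⟩
  · unfold fs; field_simp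
  · unfold fz
    rw [Real.sq_sqrt (div_pos hr hq).le, hP, div_mul_cancel₀ _ hq.ne']
  · unfold fy; field_simp
  · unfold fw; field_simp
  · unfold fm
    rw [div_pow, mul_pow, hsq, hP]
    rw [div_mul_eq_mul_div, div_mul_eq_mul_div, div_eq_iff (by positivity)]
    rw [mul_assoc (_ ^ 2) (_ / _) _, mul_assoc (_ ^ 2) _ (16 + 6 * x ^ 2 - (x ^ 2) ^ 2)]
    have : (2728 - 485 * x ^ 2) / (16 + 6 * x ^ 2 - (x ^ 2) ^ 2) * (1 + 5 * x ^ 2) ^ 2 *
        (16 + 6 * x ^ 2 - (x ^ 2) ^ 2) = (2728 - 485 * x ^ 2) * (1 + 5 * x ^ 2) ^ 2 := by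
      rw [mul_right_comm, div_mul_cancel₀ _ hq.ne']
    rw [this]
    ring
  · unfold fz
    exact Real.sqrt_pos.2 (div_pos hr hq)

theorem continuousOn_pt {f g h : ℝ → ℝ} {S : Set ℝ} (hf : ContinuousOn f S)
    (hg : ContinuousOn g S) (hh : ContinuousOn h S) :
    ContinuousOn (fun x => pt (f x) (g x) (h x)) S := by
  unfold pt
  refine (PiLp.continuous_toLp 2 _).comp_continuousOn ?_
  refine continuousOn_pi.2 fun i => ?_
  fin_cases i
  · exact hf
  · exact hg
  · exact hh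

theorem cont_P : ContinuousOn (fun x : ℝ => fP (x ^ 2)) Dom := by
  unfold fP; fun_prop

theorem cont_s : ContinuousOn (fun x : ℝ => fs (x ^ 2)) Dom := by
  unfold fs
  exact continuousOn_const.div cont_P fun x hx => (fP_pos (sq_nonneg x) (dom_X hx)).ne'

theorem cont_z : ContinuousOn (fun x : ℝ => fz (x ^ 2)) Dom := by
  unfold fz
  refine ContinuousOn.sqrt ?_
  refine ContinuousOn.div (by fun_prop) (by fun_prop) fun x hx => ?_
  exact (q_pos (sq_nonneg x) (dom_X hx)).ne'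

theorem cont_y : ContinuousOn (fun x : ℝ => fy (x ^ 2)) Dom := by
  unfold fy
  refine ContinuousOn.div (by fun_prop) (by fun_prop) fun x hx => ?_
  positivity

theorem cont_w : ContinuousOn (fun x : ℝ => fw (x ^ 2)) Dom := by
  unfold fw
  refine ContinuousOn.div (by fun_prop) (cont_P.mul (by fun_prop)) fun x hx => ?_
  have := fP_pos (sq_nonneg x) (dom_X hx)
  positivity

theorem cont_m : ContinuousOn fm Dom := by
  unfold fm
  refine ContinuousOn.div (ContinuousOn.mul (by fun_prop) (ContinuousOn.sqrt ?_)) (by fun_prop)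
    fun x hx => by positivity
  refine ContinuousOn.div (by fun_prop) (by fun_prop) fun x hx => ?_
  exact (q_pos (sq_nonneg x) (dom_X hx)).ne'

theorem cont_std : ContinuousOn std Dom := by
  refine continuousOn_pi.2 fun i => ?_
  fin_cases i
  · exact continuousOn_pt (by fun_prop) (by fun_prop) (by fun_prop)
  · exact continuousOn_pt cont_s continuousOn_const cont_z
  · exact continuousOn_pt cont_s continuousOn_const cont_z.neg
  · exact continuousOn_pt (by fun_prop) (by fun_prop) (by fun_prop)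
  · exact continuousOn_pt cont_P (by fun_prop) (by fun_prop)
  · exact continuousOn_pt (continuousOn_const.mul cont_P) (by fun_prop) (by fun_prop)
  · exact continuousOn_pt cont_w cont_y cont_m

/-- product of the heights of `N` and `m` -/
def fh (x : ℝ) : ℝ := fz (x ^ 2) * fm x

theorem fh_neg (x : ℝ) : fh (-x) = -fh x := by
  unfold fh fm; ring_nf

/-- the square of `fh` in terms of `X` -/
def psi (X : ℝ) : ℝ :=
  25 * X ^ 3 * (2728 - 485 * X) * (16 + 12 * X - 2 * X ^ 2) /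
    ((1 + 5 * X) ^ 2 * (16 + 6 * X - X ^ 2) ^ 2)

theorem fh_sq {x : ℝ} (hx : x ∈ Dom) : fh x ^ 2 = psi (x ^ 2) := by
  have h := rel_std hx
  have hq := q_pos (sq_nonneg x) (dom_X hx)
  unfold fh psi
  rw [eq_div_iff (by have := h.X0; positivity), ← h.hP]
  linear_combination (fm x ^ 2 * (1 + 5 * x ^ 2) ^ 2 * fP (x ^ 2) ^ 2) * h.hz
    + (16 + 12 * x ^ 2 - 2 * (x ^ 2) ^ 2) * h.hm

theorem fh_nonneg {x : ℝ} (hx : x ∈ Dom) (h0 : 0 ≤ x) : 0 ≤ fh x := by
  have h := rel_std hx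
  have := h.z0
  unfold fh fm
  positivity

/-- lower bound for `psi` -/
theorem psi_lower {X : ℝ} (h0 : 0 ≤ X) (h1 : X < 1 / 100) : 3600 * X ^ 3 ≤ psi X := by
  have hq := q_pos h0 h1
  unfold psi
  rw [le_div_iff₀ (by positivity)]
  have h2 : 3600 * ((1 + 5 * X) ^ 2 * (16 + 6 * X - X ^ 2) ^ 2) ≤
      25 * (2728 - 485 * X) * (16 + 12 * X - 2 * X ^ 2) := by
    have a1 : (1 + 5 * X) ^ 2 ≤ 1.11 := by nlinarith
    have a2 : (16 + 6 * X - X ^ 2) ^ 2 ≤ 258 := by nlinarith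
    have a3 : (1 + 5 * X) ^ 2 * (16 + 6 * X - X ^ 2) ^ 2 ≤ 1.11 * 258 :=
      mul_le_mul a1 a2 (by positivity) (by norm_num)
    have a4 : 2720 ≤ 2728 - 485 * X := by linarith
    have a5 : 16 ≤ 16 + 12 * X - 2 * X ^ 2 := by nlinarith
    have a6 : 2720 * 16 ≤ (2728 - 485 * X) * (16 + 12 * X - 2 * X ^ 2) :=
      mul_le_mul a4 a5 (by norm_num) (by linarith)
    nlinarith
  have h3 : 0 ≤ X ^ 3 := by positivity
  nlinarith [mul_le_mul_of_nonneg_left h2 h3]

theorem psi_mono {X Y : ℝ} (h0 : 0 ≤ X) (hXY : X < Y) (h1 : Y < 1 / 100) : psi X < psi Y := by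
  have hqX := q_pos h0 (hXY.trans h1)
  have hqY := q_pos (h0.trans hXY.le) h1
  have hrX := r_pos h0 (hXY.trans h1)
  have hrY := r_pos (h0.trans hXY.le) h1
  -- three increasing factors
  have f1 : X / (1 + 5 * X) < Y / (1 + 5 * Y) := by
    rw [div_lt_div_iff₀ (by positivity) (by linarith)]; nlinarith
  have f2 : X * (2728 - 485 * X) / (16 + 6 * X - X ^ 2) < Y * (2728 - 485 * Y) / (16 + 6 * Y - Y ^ 2) := by
    rw [div_lt_div_iff₀ hqX hqY]
    have : Y * (2728 - 485 * Y) * (16 + 6 * X - X ^ 2) - X * (2728 - 485 * X) * (16 + 6 * Y - Y ^ 2)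
       = (Y - X) * (43648 - 7760 * (X + Y) - 182 * (X * Y)) := by ring
    have h2 : 0 < (Y - X) * (43648 - 7760 * (X + Y) - 182 * (X * Y)) := by
      apply mul_pos (by linarith)
      nlinarith
    linarith
  have f3 : (16 + 12 * X - 2 * X ^ 2) / (16 + 6 * X - X ^ 2) ≤ (16 + 12 * Y - 2 * Y ^ 2) / (16 + 6 * Y - Y ^ 2) := by
    rw [div_le_div_iff₀ hqX hqY]
    have : (16 + 12 * Y - 2 * Y ^ 2) * (16 + 6 * X - X ^ 2) - (16 + 12 * X - 2 * X ^ 2) * (16 + 6 * Y - Y ^ 2)
       = (Y - X) * (96 - 16 * (X + Y)) := by ring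
    have h2 : 0 ≤ (Y - X) * (96 - 16 * (X + Y)) := by
      apply mul_nonneg (by linarith)
      nlinarith
    linarith
  have e : ∀ Z : ℝ, 0 ≤ Z → Z < 1 / 100 → psi Z = 25 * (Z / (1 + 5 * Z)) ^ 2 *
      (Z * (2728 - 485 * Z) / (16 + 6 * Z - Z ^ 2)) * ((16 + 12 * Z - 2 * Z ^ 2) / (16 + 6 * Z - Z ^ 2)) := by
    intro Z hZ0 hZ1
    have := q_pos hZ0 hZ1
    have h5 : (1 + 5 * Z) ≠ 0 := by positivity
    have h6 : (16 + 6 * Z - Z ^ 2) ≠ 0 := this.ne'
    unfold psi
    generalize 16 + 6 * Z - Z ^ 2 = b at *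
    field_simp
  rw [e X h0 (hXY.trans h1), e Y (h0.trans hXY.le) h1]
  have p1 : 0 ≤ X / (1 + 5 * X) := by positivity
  have p2 : 0 ≤ X * (2728 - 485 * X) / (16 + 6 * X - X ^ 2) :=
    div_nonneg (mul_nonneg h0 (by linarith)) hqX.le
  have p3 : 0 < (16 + 12 * X - 2 * X ^ 2) / (16 + 6 * X - X ^ 2) := div_pos hrX hqX
  have g1 : (X / (1 + 5 * X)) ^ 2 < (Y / (1 + 5 * Y)) ^ 2 := by
    exact pow_lt_pow_left₀ f1 p1 (by norm_num)
  have g2 : 25 * (X / (1 + 5 * X)) ^ 2 * (X * (2728 - 485 * X) / (16 + 6 * X - X ^ 2)) <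
      25 * (Y / (1 + 5 * Y)) ^ 2 * (Y * (2728 - 485 * Y) / (16 + 6 * Y - Y ^ 2)) := by
    apply mul_lt_mul'' (by linarith) f2 (by positivity) p2
  have p4 : 0 ≤ Y * (2728 - 485 * Y) / (16 + 6 * Y - Y ^ 2) :=
    div_nonneg (mul_nonneg (h0.trans hXY.le) (by linarith)) hqY.le
  exact mul_lt_mul g2 f3 p3 (mul_nonneg (by positivity) p4)

theorem fh_lt {x y : ℝ} (h0 : 0 ≤ x) (hxy : x < y) (hx : x ∈ Dom) (hy : y ∈ Dom) :
    fh x < fh y := by
  have hX : x ^ 2 < y ^ 2 := by nlinarith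
  have := psi_mono (sq_nonneg x) hX (dom_X hy)
  rw [← fh_sq hx, ← fh_sq hy] at this
  exact lt_of_pow_lt_pow_left₀ 2 (fh_nonneg hy (h0.trans hxy.le)) this

theorem neg_dom {x : ℝ} (hx : x ∈ Dom) : -x ∈ Dom := by
  obtain ⟨h1, h2⟩ := hx; constructor <;> linarith

theorem zero_dom : (0 : ℝ) ∈ Dom := by constructor <;> norm_num

theorem fh_strictMono : StrictMonoOn fh Dom := by
  have neg : ∀ x y : ℝ, x < y → y ≤ 0 → x ∈ Dom → y ∈ Dom → fh x < fh y := by
    intro x y hxy hy0 hx hy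
    have := fh_lt (x := -y) (y := -x) (by linarith) (by linarith) (neg_dom hy) (neg_dom hx)
    rw [fh_neg, fh_neg] at this
    linarith
  intro x hx y hy hxy
  rcases le_or_gt 0 x with h | h
  · exact fh_lt h hxy hx hy
  · rcases le_or_gt y 0 with h' | h'
    · exact neg x y hxy h' hx hy
    · exact (neg x 0 h le_rfl hx zero_dom).trans (fh_lt le_rfl h' zero_dom hy)

theorem psi_diff {X Y : ℝ} (h0 : 0 ≤ X) (hXY : X ≤ Y) (h1 : Y < 1 / 100) :
    psi Y - psi X ≤ 15000 * Y ^ 2 * (Y - X) := by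
  have hqX := q_pos h0 (hXY.trans_lt h1)
  have hqY := q_pos (h0.trans hXY) h1
  have hrX := r_pos h0 (hXY.trans_lt h1)
  have hrY := r_pos (h0.trans hXY) h1
  have hY0 := h0.trans hXY
  -- the factor R
  set R : ℝ → ℝ := fun Z => 25 * (2728 - 485 * Z) *
    ((16 + 12 * Z - 2 * Z ^ 2) / ((1 + 5 * Z) * (16 + 6 * Z - Z ^ 2))) *
    (1 / ((1 + 5 * Z) * (16 + 6 * Z - Z ^ 2))) with hR
  have e : ∀ Z : ℝ, 0 ≤ Z → Z < 1 / 100 → psi Z = Z ^ 3 * R Z := by
    intro Z hZ0 hZ1
    have := q_pos hZ0 hZ1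
    have h5 : (1 + 5 * Z) ≠ 0 := by positivity
    have h6 : (16 + 6 * Z - Z ^ 2) ≠ 0 := this.ne'
    simp only [hR]
    unfold psi
    generalize 16 + 6 * Z - Z ^ 2 = b at *
    field_simp
  have hdec : ∀ Z W : ℝ, 0 ≤ Z → Z ≤ W → W < 1 / 100 → R W ≤ R Z := by
    intro Z W hZ hZW hW
    have qZ := q_pos hZ (hZW.trans_lt hW)
    have qW := q_pos (hZ.trans hZW) hW
    have rZ := r_pos hZ (hZW.trans_lt hW)
    have rW := r_pos (hZ.trans hZW) hW
    have hW0 := hZ.trans hZW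
    have b1 : (16 + 12 * W - 2 * W ^ 2) / ((1 + 5 * W) * (16 + 6 * W - W ^ 2)) ≤
        (16 + 12 * Z - 2 * Z ^ 2) / ((1 + 5 * Z) * (16 + 6 * Z - Z ^ 2)) := by
      rw [div_le_div_iff₀ (by positivity) (by positivity)]
      have key : (16 + 12 * Z - 2 * Z ^ 2) * ((1 + 5 * W) * (16 + 6 * W - W ^ 2)) -
          (16 + 12 * W - 2 * W ^ 2) * ((1 + 5 * Z) * (16 + 6 * Z - Z ^ 2)) =
          (W - Z) * (1184 + 496 * (Z + W) - 80 * (W ^ 2 + Z * W + Z ^ 2) + 520 * (Z * W)
            - 60 * (Z * W) * (Z + W) + 10 * Z ^ 2 * W ^ 2) := by ring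
      have h2 : 0 ≤ (W - Z) * (1184 + 496 * (Z + W) - 80 * (W ^ 2 + Z * W + Z ^ 2) + 520 * (Z * W)
            - 60 * (Z * W) * (Z + W) + 10 * Z ^ 2 * W ^ 2) := by
        apply mul_nonneg (by linarith)
        have i1 : W ^ 2 ≤ 1 := by nlinarith
        have i2 : Z * W ≤ 1 := by nlinarith
        have i3 : Z ^ 2 ≤ 1 := by nlinarith
        have i4 : 0 ≤ Z * W := by positivity
        have i5 : (Z * W) * (Z + W) ≤ 1 := by nlinarith
        nlinarith [sq_nonneg (Z * W)]
      linarith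
    have c1 : 1 / ((1 + 5 * W) * (16 + 6 * W - W ^ 2)) ≤ 1 / ((1 + 5 * Z) * (16 + 6 * Z - Z ^ 2)) := by
      apply one_div_le_one_div_of_le (by positivity)
      apply mul_le_mul (by linarith) (by nlinarith) (by positivity) (by positivity)
    have a1 : 25 * (2728 - 485 * W) ≤ 25 * (2728 - 485 * Z) := by linarith
    have n1 : 0 ≤ (16 + 12 * W - 2 * W ^ 2) / ((1 + 5 * W) * (16 + 6 * W - W ^ 2)) := by positivity
    have n2 : 0 ≤ 1 / ((1 + 5 * W) * (16 + 6 * W - W ^ 2)) := by positivity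
    have n3 : 0 ≤ 25 * (2728 - 485 * Z) := by linarith
    have n4 : 0 ≤ (16 + 12 * Z - 2 * Z ^ 2) / ((1 + 5 * Z) * (16 + 6 * Z - Z ^ 2)) := by positivity
    simp only [hR]
    apply mul_le_mul (mul_le_mul a1 b1 n1 n3) c1 n2 (mul_nonneg n3 n4)
  have hR0 : R 0 ≤ 5000 := by simp only [hR]; norm_num
  have hRX : R X ≤ 5000 := (hdec 0 X le_rfl h0 (hXY.trans_lt h1)).trans hR0
  have hRYX := hdec X Y h0 hXY h1
  rw [e X h0 (hXY.trans_lt h1), e Y hY0 h1]
  have c3 : 0 ≤ Y ^ 3 - X ^ 3 := by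
    have : X ^ 3 ≤ Y ^ 3 := pow_le_pow_left₀ h0 hXY 3
    linarith
  have c4 : Y ^ 3 - X ^ 3 ≤ 3 * Y ^ 2 * (Y - X) := by
    have : 3 * Y ^ 2 * (Y - X) - (Y ^ 3 - X ^ 3) = (Y - X) ^ 2 * (2 * Y + X) := by ring
    have : 0 ≤ (Y - X) ^ 2 * (2 * Y + X) := by positivity
    linarith
  have d1 : Y ^ 3 * R Y ≤ Y ^ 3 * R X := mul_le_mul_of_nonneg_left hRYX (by positivity)
  calc Y ^ 3 * R Y - X ^ 3 * R X ≤ (Y ^ 3 - X ^ 3) * R X := by linarith
    _ ≤ (Y ^ 3 - X ^ 3) * 5000 := mul_le_mul_of_nonneg_left hRX c3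
    _ ≤ (3 * Y ^ 2 * (Y - X)) * 5000 := mul_le_mul_of_nonneg_right c4 (by norm_num)
    _ = 15000 * Y ^ 2 * (Y - X) := by ring

theorem fh_diff {x y : ℝ} (h0 : 0 ≤ x) (hxy : x ≤ y) (hx : x ∈ Dom) (hy : y ∈ Dom) :
    fh y - fh x ≤ 100 * (y ^ 2 - x ^ 2) := by
  rcases eq_or_lt_of_le hxy with rfl | hlt
  · simp
  have hy0 : 0 < y := h0.trans_lt hlt
  have hX : x ^ 2 ≤ y ^ 2 := by nlinarith
  have hd := psi_diff (sq_nonneg x) hX (dom_X hy)
  have hl := psi_lower (sq_nonneg y) (dom_X hy)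
  rw [← fh_sq hx, ← fh_sq hy] at hd
  rw [← fh_sq hy] at hl
  have hyn := fh_nonneg hy hy0.le
  have hxn := fh_nonneg hx h0
  have hl2 : 60 * y ^ 3 ≤ fh y := by
    apply le_of_sq_le_sq _ hyn
    nlinarith
  have hy1 : y < 1 / 10 := hy.2
  -- (fh y - fh x) * (60 y^3) ≤ (fh y)^2 - (fh x)^2 ≤ 15000 y^4 (y^2 - x^2)
  have hmono : fh x < fh y := fh_lt h0 hlt hx hy
  have h3 : (fh y - fh x) * (60 * y ^ 3) ≤ 15000 * (y ^ 2) ^ 2 * (y ^ 2 - x ^ 2) := by
    refine le_trans ?_ hd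
    have : (fh y - fh x) * (60 * y ^ 3) ≤ (fh y - fh x) * (fh y + fh x) :=
      mul_le_mul_of_nonneg_left (by linarith) (by linarith)
    linarith [this]
  have h4 : (fh y - fh x) * (60 * y ^ 3) ≤ (100 * (y ^ 2 - x ^ 2)) * (60 * y ^ 3) := by
    refine h3.trans ?_
    have : (100 * (y ^ 2 - x ^ 2)) * (60 * y ^ 3) - 15000 * (y ^ 2) ^ 2 * (y ^ 2 - x ^ 2) =
      (y ^ 2 - x ^ 2) * y ^ 3 * (6000 - 15000 * y) := by ring
    have h5 : 0 ≤ (y ^ 2 - x ^ 2) * y ^ 3 * (6000 - 15000 * y) := by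
      apply mul_nonneg (mul_nonneg (by linarith) (by positivity)) (by linarith)
    linarith
  exact le_of_mul_le_mul_right h4 (by positivity)

theorem sw_eq {X : ℝ} (h0 : 0 ≤ X) (h1 : X < 1 / 100) :
    fs X * fw X = 4 * (80 + 470 * X) / ((1 + 5 * X) * (16 + 6 * X - X ^ 2)) := by
  have hP := fP_sq h0 h1
  have hP0 := fP_pos h0 h1
  rw [← hP]
  unfold fs fw
  have h5 : (1 + 5 * X) ≠ 0 := by positivity
  field_simp

theorem A_diff {X Y : ℝ} (h0 : 0 ≤ X) (hXY : X ≤ Y) (h1 : Y < 1 / 100) :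
    200 * (Y - X) ≤ (12 * fy Y - 2 * (fs Y * fw Y)) - (12 * fy X - 2 * (fs X * fw X)) := by
  have hY0 := h0.trans hXY
  have hX1 := hXY.trans_lt h1
  have qX := q_pos h0 hX1
  have qY := q_pos hY0 h1
  rw [sw_eq h0 hX1, sw_eq hY0 h1]
  have e1 : 270 * (Y - X) ≤ 12 * fy Y - 12 * fy X := by
    have : 12 * fy Y - 12 * fy X = 300 * (Y - X) / ((1 + 5 * X) * (1 + 5 * Y)) := by
      unfold fy
      have h5 : (1 + 5 * X) ≠ 0 := by positivity
      have h6 : (1 + 5 * Y) ≠ 0 := by positivity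
      field_simp
      ring
    rw [this, le_div_iff₀ (by positivity)]
    have h7 : (1 + 5 * X) * (1 + 5 * Y) ≤ 10 / 9 := by nlinarith
    nlinarith [mul_le_mul_of_nonneg_left h7 (sub_nonneg.2 hXY)]
  have e2 : 4 * (80 + 470 * Y) / ((1 + 5 * Y) * (16 + 6 * Y - Y ^ 2)) -
      4 * (80 + 470 * X) / ((1 + 5 * X) * (16 + 6 * X - X ^ 2)) ≤ 35 * (Y - X) := by
    rw [div_sub_div _ _ (by positivity) (by positivity), div_le_iff₀ (by positivity)]
    have key : 4 * (80 + 470 * Y) * ((1 + 5 * X) * (16 + 6 * X - X ^ 2)) -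
        (1 + 5 * Y) * (16 + 6 * Y - Y ^ 2) * (4 * (80 + 470 * X)) =
        4 * (Y - X) * (640 - 2320 * (X + Y) + 400 * (Y ^ 2 + X * Y + X ^ 2) - 13630 * (X * Y)
          + 2350 * (X * Y) * (X + Y)) := by ring
    rw [key]
    have i1 : Y ^ 2 ≤ 1 / 100 := by nlinarith
    have i2 : X * Y ≤ 1 / 100 := by nlinarith
    have i3 : X ^ 2 ≤ 1 / 100 := by nlinarith
    have i4 : 0 ≤ X * Y := by positivity
    have i5 : (X * Y) * (X + Y) ≤ 1 / 1000 := by nlinarith
    have j1 : 640 - 2320 * (X + Y) + 400 * (Y ^ 2 + X * Y + X ^ 2) - 13630 * (X * Y)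
          + 2350 * (X * Y) * (X + Y) ≤ 700 := by nlinarith
    have j2 : 256 ≤ (1 + 5 * Y) * (16 + 6 * Y - Y ^ 2) * ((1 + 5 * X) * (16 + 6 * X - X ^ 2)) := by
      have k1 : 16 ≤ (1 + 5 * Y) * (16 + 6 * Y - Y ^ 2) := by nlinarith
      have k2 : 16 ≤ (1 + 5 * X) * (16 + 6 * X - X ^ 2) := by nlinarith
      nlinarith
    have j3 : 0 ≤ Y - X := by linarith
    calc 4 * (Y - X) * (640 - 2320 * (X + Y) + 400 * (Y ^ 2 + X * Y + X ^ 2) - 13630 * (X * Y)
          + 2350 * (X * Y) * (X + Y)) ≤ 4 * (Y - X) * 700 :=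
            mul_le_mul_of_nonneg_left j1 (by linarith)
      _ ≤ 35 * (Y - X) * 256 := by nlinarith
      _ ≤ _ := mul_le_mul_of_nonneg_left j2 (by linarith)
  linarith

theorem z_mono {X Y : ℝ} (h0 : 0 ≤ X) (hXY : X ≤ Y) (h1 : Y < 1 / 100) :
    fz X ^ 2 ≤ fz Y ^ 2 := by
  have hY0 := h0.trans hXY
  have hX1 := hXY.trans_lt h1
  have qX := q_pos h0 hX1
  have qY := q_pos hY0 h1
  unfold fz
  rw [Real.sq_sqrt (div_pos (r_pos h0 hX1) qX).le, Real.sq_sqrt (div_pos (r_pos hY0 h1) qY).le]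
  rw [div_le_div_iff₀ qX qY]
  have : (16 + 12 * Y - 2 * Y ^ 2) * (16 + 6 * X - X ^ 2) -
      (16 + 12 * X - 2 * X ^ 2) * (16 + 6 * Y - Y ^ 2)
     = (Y - X) * (96 - 16 * (X + Y)) := by ring
  have h2 : 0 ≤ (Y - X) * (96 - 16 * (X + Y)) := by
    apply mul_nonneg (by linarith)
    nlinarith
  linarith

theorem y_mono {X Y : ℝ} (h0 : 0 ≤ X) (hXY : X ≤ Y) : fy X ≤ fy Y := by
  have hY0 := h0.trans hXY
  unfold fy
  rw [div_le_div_iff₀ (by positivity) (by positivity)]
  linarith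

theorem P_mono {X Y : ℝ} (h0 : 0 ≤ X) (hXY : X ≤ Y) (h1 : Y < 1 / 100) :
    fP X ^ 2 ≤ fP Y ^ 2 := by
  rw [fP_sq h0 (hXY.trans_lt h1), fP_sq (h0.trans hXY) h1]; nlinarith

theorem std_dist_mono_aux {x y : ℝ} (h0 : 0 ≤ x) (hxy : x ≤ y) (hx : x ∈ Dom) (hy : y ∈ Dom) :
    dist (std x 1) (std x 2) ^ 2 ≤ dist (std y 1) (std y 2) ^ 2 ∧
    dist (std x 3) (std x 4) ^ 2 ≤ dist (std y 3) (std y 4) ^ 2 ∧
    dist (std x 3) (std x 5) ^ 2 ≤ dist (std y 3) (std y 5) ^ 2 ∧
    dist (std x 4) (std x 5) ^ 2 ≤ dist (std y 4) (std y 5) ^ 2 ∧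
    dist (std x 0) (std x 6) ^ 2 ≤ dist (std y 0) (std y 6) ^ 2 ∧
    dist (std x 1) (std x 6) ^ 2 ≤ dist (std y 1) (std y 6) ^ 2 ∧
    dist (std x 2) (std x 6) ^ 2 ≤ dist (std y 2) (std y 6) ^ 2 := by
  have hX : x ^ 2 ≤ y ^ 2 := by nlinarith
  have X0 := sq_nonneg x
  have X1 := dom_X hx
  have Y1 := dom_X hy
  have hA := A_diff X0 hX Y1
  have hD := fh_diff h0 hxy hx hy
  have hM : fh x ≤ fh y := by
    rcases eq_or_lt_of_le hxy with rfl | h
    · exact le_rfl
    · exact (fh_lt h0 h hx hy).le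
  have hP := P_mono X0 hX Y1
  have hfy := y_mono X0 hX
  have hz := z_mono X0 hX Y1
  have hrx := rel_std hx
  have hry := rel_std hy
  unfold fh at hD hM
  unfold std
  generalize fP (x ^ 2) = Px at *
  generalize fP (y ^ 2) = Py at *
  generalize fs (x ^ 2) = sx at *
  generalize fs (y ^ 2) = sy at *
  generalize fz (x ^ 2) = zx at *
  generalize fz (y ^ 2) = zy at *
  generalize fy (x ^ 2) = yx at *
  generalize fy (y ^ 2) = yy at *
  generalize fw (x ^ 2) = wx at *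
  generalize fw (y ^ 2) = wy at *
  generalize fm x = mx at *
  generalize fm y = my at *
  obtain ⟨a1, a2, a3, a4, a5, a6, a7⟩ := hrx.nonedges
  obtain ⟨b1, b2, b3, b4, b5, b6, b7⟩ := hry.nonedges
  rw [a1, a2, a3, a4, a5, a6, a7, b1, b2, b3, b4, b5, b6, b7]
  refine ⟨?_, ?_, ?_, ?_, ?_, ?_, ?_⟩
  · linarith only [hz]
  · linarith only [hX]
  · linarith only [hX]
  · linarith only [hP]
  · linarith only [hfy]
  · linarith only [hA, hD, hM]
  · linarith only [hA, hD, hM, hX]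

theorem rel_unique {X P s z my mw mz : ℝ} (h : Rel X P s z my mw mz) : P = fP X ∧ s = fs X ∧ z = fz X ∧ my = fy X ∧ mw = fw X := by
  have hP : P = fP X := by
    unfold fP; rw [← h.hP, Real.sqrt_sq h.P0.le]
  have hP' : P ^ 2 ≠ 0 := pow_ne_zero _ h.P0.ne'
  refine ⟨hP, ?_, ?_, ?_, ?_⟩
  · unfold fs; rw [← hP, eq_div_iff h.P0.ne']; exact h.hs
  · unfold fz
    rw [← h.hP, ← h.hz, mul_div_cancel_right₀ _ hP', Real.sqrt_sq h.z0.le]
  · unfold fy; rw [eq_div_iff h.X0.ne']; exact h.hy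
  · unfold fw; rw [← hP, eq_div_iff (mul_ne_zero h.P0.ne' h.X0.ne'), ← mul_assoc]; exact h.hw

theorem rel_param {X P s z my mw mz : ℝ} (h : Rel X P s z my mw mz) (h0 : 0 ≤ X)
    (h1 : X < 1 / 100) : ∃ x ∈ Dom, conf X P s z my mw mz = std x := by
  obtain ⟨e1, e2, e3, e4, e5⟩ := rel_unique h
  have hs0 : Real.sqrt X ^ 2 = X := Real.sq_sqrt h0
  have hsn : 0 ≤ Real.sqrt X := Real.sqrt_nonneg X
  have hs1 : Real.sqrt X < 1 / 10 := by
    apply lt_of_pow_lt_pow_left₀ 2 (by norm_num)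
    rw [hs0]; linarith
  have key : ∀ x ∈ Dom, x ^ 2 = X → mz = fm x → conf X P s z my mw mz = std x := by
    intro x _ hx2 hmx
    unfold std
    rw [hx2, ← hmx, ← e1, ← e2, ← e3, ← e4, ← e5]
  have hsq : ∀ x ∈ Dom, x ^ 2 = X → fm x ^ 2 = mz ^ 2 := by
    intro x hx hx2
    have hr := (rel_std hx).hm
    rw [hx2, ← e1, ← h.hm] at hr
    have hne : (1 + 5 * X) ^ 2 * P ^ 2 ≠ 0 :=
      mul_ne_zero (pow_ne_zero _ h.X0.ne') (pow_ne_zero _ h.P0.ne')
    apply mul_right_cancel₀ hne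
    linarith
  have hfm : ∀ x ∈ Dom, 0 ≤ x → 0 ≤ fm x := by
    intro x _ hx0
    unfold fm
    positivity
  rcases le_or_gt 0 mz with hz | hz
  · have hd : Real.sqrt X ∈ Dom := ⟨by linarith, hs1⟩
    refine ⟨Real.sqrt X, hd, key _ hd hs0 ?_⟩
    have := hsq _ hd hs0
    exact ((pow_left_inj₀ (hfm _ hd hsn) hz two_ne_zero).1 this).symm
  · have hd : Real.sqrt X ∈ Dom := ⟨by linarith, hs1⟩
    have hd' : -Real.sqrt X ∈ Dom := neg_dom hd
    have hs0' : (-Real.sqrt X) ^ 2 = X := by rw [neg_sq]; exact hs0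
    refine ⟨-Real.sqrt X, hd', key _ hd' hs0' ?_⟩
    have h2 := hsq _ hd hs0
    rw [← neg_sq mz] at h2
    have h3 := (pow_left_inj₀ (hfm _ hd hsn) (by linarith) two_ne_zero).1 h2
    have h4 : fm (-Real.sqrt X) = - fm (Real.sqrt X) := by unfold fm; ring_nf
    rw [h4, h3, neg_neg]

theorem solve_point {s z w y t c : ℝ} (r : ℝ) (hz : 0 < z) (hsz : s ^ 2 + z ^ 2 = 2)
    (h0 : w ^ 2 + y ^ 2 + t ^ 2 = r) (h1 : (s - w) ^ 2 + y ^ 2 + (z - t) ^ 2 = c)
    (h2 : (s - w) ^ 2 + y ^ 2 + (-z - t) ^ 2 = c) : t = 0 ∧ s * w = (2 + r - c) / 2 := by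
  have ht : z * t = 0 := by linarith
  have ht0 : t = 0 := by
    rcases mul_eq_zero.1 ht with h | h
    · exact absurd h hz.ne'
    · exact h
  subst ht0
  refine ⟨rfl, by linarith⟩

theorem rel_of_eqs {s z w2 y2 t2 w3 y3 t3 mw my mz : ℝ} (hs : 0 < s) (hz : 0 < z)
    (hsz : s ^ 2 + z ^ 2 = 2)
    (h04 : w2 ^ 2 + y2 ^ 2 + t2 ^ 2 = 25)
    (h14 : (s - w2) ^ 2 + y2 ^ 2 + (z - t2) ^ 2 = 19)
    (h24 : (s - w2) ^ 2 + y2 ^ 2 + (-z - t2) ^ 2 = 19)
    (h05 : w3 ^ 2 + y3 ^ 2 + t3 ^ 2 = 5625)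
    (h15 : (s - w3) ^ 2 + y3 ^ 2 + (z - t3) ^ 2 = 5747)
    (h25 : (s - w3) ^ 2 + y3 ^ 2 + (-z - t3) ^ 2 = 5747)
    (h34 : |w2 ^ 2 + (6 - y2) ^ 2 + t2 ^ 2 - 25| < 12 / 100)
    (h35 : w3 ^ 2 + (6 - y3) ^ 2 + t3 ^ 2 < 5661)
    (h63 : mw ^ 2 + (my - 6) ^ 2 + mz ^ 2 = 521)
    (h64 : (mw - w2) ^ 2 + (my - y2) ^ 2 + (mz - t2) ^ 2 = 320)
    (h65 : (mw - w3) ^ 2 + (my - y3) ^ 2 + (mz - t3) ^ 2 = 8900) :
    t2 = 0 ∧ t3 = 0 ∧ w3 = -15 * w2 ∧ y3 = 15 * y2 ∧
      Rel (3 - y2) w2 s z my mw mz ∧ 0 ≤ 3 - y2 ∧ 3 - y2 < 1 / 100 := by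
  obtain ⟨ht2, hw2⟩ := solve_point 25 hz hsz h04 h14 h24
  obtain ⟨ht3, hw3⟩ := solve_point 5625 hz hsz h05 h15 h25
  subst ht2
  subst ht3
  rw [abs_lt] at h34
  have hy2 : y2 < 3 + 1 / 100 ∧ 3 - 1 / 100 < y2 := by
    constructor <;> linarith [h34.1, h34.2]
  have hy3 : 0 < y3 := by linarith
  have hw23 : w3 = -15 * w2 := by
    have : s * (w3 + 15 * w2) = 0 := by linarith
    rcases mul_eq_zero.1 this with h | h
    · exact absurd h hs.ne'
    · linarith
  subst hw23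
  have hy23 : y3 = 15 * y2 := by
    have : y3 ^ 2 = (15 * y2) ^ 2 := by linarith
    exact (pow_left_inj₀ hy3.le (by linarith [hy2.2]) two_ne_zero).1 this
  subst hy23
  have hw2pos : 0 < w2 := by
    have : 0 < s * w2 := by rw [hw2]; norm_num
    exact (mul_pos_iff_of_pos_left hs).1 this
  have hyy : my * (1 + 5 * (3 - y2)) = -5 := by linarith
  have hC : w2 * mw = 95 + (3 + (3 - y2)) * my := by
    linear_combination (1 / 2) * h63 - (1 / 2) * h64 + (1 / 2) * h04
  have hP : w2 ^ 2 = 16 + 6 * (3 - y2) - (3 - y2) ^ 2 := by linarith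
  have hB : mw ^ 2 + my ^ 2 + mz ^ 2 = 485 + 12 * my := by linarith
  have hX0 : 0 < 1 + 5 * (3 - y2) := by linarith [hy2.1]
  have hm : mz ^ 2 * (1 + 5 * (3 - y2)) ^ 2 * w2 ^ 2 =
      25 * (3 - y2) ^ 3 * (2728 - 485 * (3 - y2)) := by
    have e1 : mz ^ 2 = 485 + 12 * my - mw ^ 2 - my ^ 2 := by linarith
    have e2 : mw * w2 * (1 + 5 * (3 - y2)) = 80 + 470 * (3 - y2) := by
      linear_combination (1 + 5 * (3 - y2)) * hC + (3 + (3 - y2)) * hyy
    rw [e1]
    linear_combination (485 * (1 + 5 * (3 - y2)) ^ 2 - 60 * (1 + 5 * (3 - y2)) - 25) * hP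
      + (12 * (1 + 5 * (3 - y2)) * w2 ^ 2 - w2 ^ 2 * (my * (1 + 5 * (3 - y2)) - 5)) * hyy
      - (mw * w2 * (1 + 5 * (3 - y2)) + 80 + 470 * (3 - y2)) * e2
  refine ⟨rfl, rfl, rfl, rfl, ⟨hP, ?_, ?_, hyy, ?_, hm, hw2pos, hz, hX0⟩, ?_, by linarith [hy2.2]⟩
  · linarith
  · have h4 : s * w2 = 4 := by linarith
    linear_combination w2 ^ 2 * hsz - (s * w2 + 4) * h4 + 2 * hP
  · linear_combination (1 + 5 * (3 - y2)) * hC + (3 + (3 - y2)) * hyy
  · by_contra hneg
    push Not at hneg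
    have h1 : 0 ≤ mz ^ 2 * (1 + 5 * (3 - y2)) ^ 2 * w2 ^ 2 := by positivity
    rw [hm] at h1
    have h2 : (3 - y2) ^ 3 < 0 := by
      have : 0 < -(3 - y2) := by linarith
      have := pow_pos this 3
      nlinarith
    have h3 : 0 < 2728 - 485 * (3 - y2) := by linarith
    nlinarith

theorem frame (v : Fin 3 → E 3) (h00 : ⟪v 0, v 0⟫ = 1) (h11 : ⟪v 1, v 1⟫ = 1) (h22 : ⟪v 2, v 2⟫ = 1)
  (h01 : ⟪v 0, v 1⟫ = 0) (h02 : ⟪v 0, v 2⟫ = 0) (h12 : ⟪v 1, v 2⟫ = 0) (o : E 3) :
  ∃ T : E 3 ≃ᵢ E 3, ∀ x i, (T x) i = ⟪v i, x - o⟫ := by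
  have hv : Orthonormal ℝ v := by
    rw [orthonormal_iff_ite]
    intro i j
    fin_cases i <;> fin_cases j
    · exact h00
    · exact h01
    · exact h02
    · exact (real_inner_comm _ _).trans h01
    · exact h11
    · exact h12
    · exact (real_inner_comm _ _).trans h02
    · exact (real_inner_comm _ _).trans h12
    · exact h22
  have hc : Fintype.card (Fin 3) = Module.finrank ℝ (E 3) := by simp
  let B := (basisOfOrthonormalOfCardEqFinrank hv hc).toOrthonormalBasis (by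
    rw [coe_basisOfOrthonormalOfCardEqFinrank]; exact hv)
  have hB : ∀ i, B i = v i := by
    intro i
    simp [B]
  refine ⟨(IsometryEquiv.subRight o).trans B.repr.toIsometryEquiv, fun x i => ?_⟩
  have := B.repr_apply_apply (x - o) i
  rw [hB] at this
  exact this

theorem frame2 (q0 q1 q2 q3 : E 3) (h01 : dist q0 q1 ^ 2 = 2) (h02 : dist q0 q2 ^ 2 = 2)
    (h03 : dist q0 q3 ^ 2 = 36) (h13 : dist q1 q3 ^ 2 = 38) (h23 : dist q2 q3 ^ 2 = 38)
    (h12 : 0 < dist q1 q2) (h12' : dist q1 q2 ^ 2 < 8) :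
    ∃ (T : E 3 ≃ᵢ E 3) (s z : ℝ), 0 < s ∧ 0 < z ∧ s ^ 2 + z ^ 2 = 2 ∧
      (∀ i, (T q0) i = 0) ∧ (T q1) 0 = s ∧ (T q1) 1 = 0 ∧ (T q1) 2 = z ∧
      (T q2) 0 = s ∧ (T q2) 1 = 0 ∧ (T q2) 2 = -z ∧
      (T q3) 0 = 0 ∧ (T q3) 1 = 6 ∧ (T q3) 2 = 0 := by
  obtain ⟨a, rfl⟩ : ∃ a, q1 = q0 + a := ⟨q1 - q0, by abel⟩
  obtain ⟨b, rfl⟩ : ∃ a, q2 = q0 + a := ⟨q2 - q0, by abel⟩
  obtain ⟨c, rfl⟩ : ∃ a, q3 = q0 + a := ⟨q3 - q0, by abel⟩
  simp only [dist_eq_norm, sub_add_cancel_left, norm_neg,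
    add_sub_add_left_eq_sub] at h01 h02 h03 h13 h23 h12 h12'
  have ha : ⟪a, a⟫ = 2 := by rw [real_inner_self_eq_norm_sq]; exact h01
  have hb : ⟪b, b⟫ = 2 := by rw [real_inner_self_eq_norm_sq]; exact h02
  have hc : ⟪c, c⟫ = 36 := by rw [real_inner_self_eq_norm_sq]; exact h03
  have hac : ⟪a, c⟫ = 0 := by
    have := @norm_sub_sq_real _ _ _ a c
    rw [← real_inner_self_eq_norm_sq a, ← real_inner_self_eq_norm_sq c, ha, hc, h13] at this
    linarith
  have hbc : ⟪b, c⟫ = 0 := by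
    have := @norm_sub_sq_real _ _ _ b c
    rw [← real_inner_self_eq_norm_sq b, ← real_inner_self_eq_norm_sq c, hb, hc, h23] at this
    linarith
  have hab : ‖a - b‖ ^ 2 = 4 - 2 * ⟪a, b⟫ := by
    have := @norm_sub_sq_real _ _ _ a b
    rw [← real_inner_self_eq_norm_sq a, ← real_inner_self_eq_norm_sq b, ha, hb] at this
    linarith
  set z : ℝ := ‖a - b‖ / 2 with hz
  have hz0 : 0 < z := by positivity
  have hz2 : ⟪a, b⟫ = 2 - 2 * z ^ 2 := by rw [hz]; nlinarith
  have hz3 : z ^ 2 < 2 := by rw [hz]; nlinarith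
  set s : ℝ := Real.sqrt (2 - z ^ 2) with hs
  have hs0 : 0 < s := Real.sqrt_pos.2 (by linarith)
  have hs2 : s ^ 2 = 2 - z ^ 2 := Real.sq_sqrt (by linarith)
  have hba : ⟪b, a⟫ = 2 - 2 * z ^ 2 := by rw [real_inner_comm]; exact hz2
  have hca : ⟪c, a⟫ = 0 := by rw [real_inner_comm]; exact hac
  have hcb : ⟪c, b⟫ = 0 := by rw [real_inner_comm]; exact hbc
  obtain ⟨T, hT⟩ := frame ![(1 / (2 * s)) • (a + b), (1 / 6 : ℝ) • c, (1 / (2 * z)) • (a - b)]
    (by
      simp only [Matrix.cons_val_zero, inner_smul_left, inner_smul_right, inner_add_left,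
        inner_add_right, ha, hb, hz2, hba]
      simp
      field_simp
      rw [hs2]; ring)
    (by
      show ⟪(1 / 6 : ℝ) • c, (1 / 6 : ℝ) • c⟫ = 1
      rw [real_inner_smul_left, real_inner_smul_right, hc]; norm_num)
    (by
      simp only [Matrix.cons_val, inner_smul_left, inner_smul_right, inner_sub_left,
        inner_sub_right, ha, hb, hz2, hba]
      simp
      field_simp
      ring)
    (by
      simp only [Matrix.cons_val_zero, Matrix.cons_val_one, inner_smul_left, inner_smul_right,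
        inner_add_left, hac, hbc]
      simp)
    (by
      show ⟪(1 / (2 * s)) • (a + b), (1 / (2 * z)) • (a - b)⟫ = 0
      rw [real_inner_smul_left, real_inner_smul_right, inner_add_left, inner_sub_right,
        inner_sub_right, ha, hb, hz2, hba]
      ring)
    (by
      simp only [Matrix.cons_val_one, Matrix.cons_val, inner_smul_left, inner_smul_right,
        inner_sub_right, hca, hcb]
      simp)
    q0
  refine ⟨T, s, z, hs0, hz0, by linarith, ?_, ?_, ?_, ?_, ?_, ?_, ?_, ?_, ?_, ?_⟩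
  · intro i; rw [hT, sub_self, inner_zero_right]
  all_goals rw [hT]
  all_goals simp only [Matrix.cons_val_zero, Matrix.cons_val_one, Matrix.cons_val, inner_smul_left,
    add_sub_cancel_left, inner_add_left, inner_sub_left, ha, hb, hc, hac, hbc, hca, hcb, hz2, hba]
  all_goals simp
  · field_simp; rw [hs2]; ring
  · field_simp
  · field_simp; rw [hs2]; ring
  · field_simp
  · norm_num


theorem Rel.dist_eq_aux {X P s z my mw mz X' P' s' z' my' mw' mz' : ℝ}
    (h1 : Rel X P s z my mw mz) (h2 : Rel X' P' s' z' my' mw' mz') :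
    ∀ i j : Fin 7, edgeB i j = true →
      dist (conf X P s z my mw mz i) (conf X P s z my mw mz j) ^ 2 =
      dist (conf X' P' s' z' my' mw' mz' i) (conf X' P' s' z' my' mw' mz' j) ^ 2 := by
  obtain ⟨a0, a1, a2, a3, a4, a5, a6, a7, a8, a9, a10, a11, a12, a13⟩ := h1.edges
  obtain ⟨b0, b1, b2, b3, b4, b5, b6, b7, b8, b9, b10, b11, b12, b13⟩ := h2.edges
  intro i j
  exact match i, j with
  | 0, 0 => fun h => absurd h (by decide)
  | 0, 1 => fun _ => a0.trans b0.symm
  | 0, 2 => fun _ => a1.trans b1.symm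
  | 0, 3 => fun _ => a2.trans b2.symm
  | 0, 4 => fun _ => a3.trans b3.symm
  | 0, 5 => fun _ => a4.trans b4.symm
  | 0, 6 => fun h => absurd h (by decide)
  | 1, 0 => fun h => absurd h (by decide)
  | 1, 1 => fun h => absurd h (by decide)
  | 1, 2 => fun h => absurd h (by decide)
  | 1, 3 => fun _ => a5.trans b5.symm
  | 1, 4 => fun _ => a6.trans b6.symm
  | 1, 5 => fun _ => a7.trans b7.symm
  | 1, 6 => fun h => absurd h (by decide)
  | 2, 0 => fun h => absurd h (by decide)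
  | 2, 1 => fun h => absurd h (by decide)
  | 2, 2 => fun h => absurd h (by decide)
  | 2, 3 => fun _ => a8.trans b8.symm
  | 2, 4 => fun _ => a9.trans b9.symm
  | 2, 5 => fun _ => a10.trans b10.symm
  | 2, 6 => fun h => absurd h (by decide)
  | 3, 0 => fun h => absurd h (by decide)
  | 3, 1 => fun h => absurd h (by decide)
  | 3, 2 => fun h => absurd h (by decide)
  | 3, 3 => fun h => absurd h (by decide)
  | 3, 4 => fun h => absurd h (by decide)
  | 3, 5 => fun h => absurd h (by decide)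
  | 3, 6 => fun h => absurd h (by decide)
  | 4, 0 => fun h => absurd h (by decide)
  | 4, 1 => fun h => absurd h (by decide)
  | 4, 2 => fun h => absurd h (by decide)
  | 4, 3 => fun h => absurd h (by decide)
  | 4, 4 => fun h => absurd h (by decide)
  | 4, 5 => fun h => absurd h (by decide)
  | 4, 6 => fun h => absurd h (by decide)
  | 5, 0 => fun h => absurd h (by decide)
  | 5, 1 => fun h => absurd h (by decide)
  | 5, 2 => fun h => absurd h (by decide)
  | 5, 3 => fun h => absurd h (by decide)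
  | 5, 4 => fun h => absurd h (by decide)
  | 5, 5 => fun h => absurd h (by decide)
  | 5, 6 => fun h => absurd h (by decide)
  | 6, 0 => fun h => absurd h (by decide)
  | 6, 1 => fun h => absurd h (by decide)
  | 6, 2 => fun h => absurd h (by decide)
  | 6, 3 => fun _ => a11.trans b11.symm
  | 6, 4 => fun _ => a12.trans b12.symm
  | 6, 5 => fun _ => a13.trans b13.symm
  | 6, 6 => fun h => absurd h (by decide)

/-- the graph: vertices 0 = S, 1 = N, 2 = N', 3, 4, 5 = the leaves, 6 = m -/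
def G7 : SimpleGraph (Fin 7) where
  Adj i j := (edgeB i j || edgeB j i) = true
  symm := ⟨fun i j h => by rw [Bool.or_comm]; exact h⟩
  loopless := ⟨by decide⟩

instance : DecidableRel G7.Adj := fun i j =>
  inferInstanceAs (Decidable ((edgeB i j || edgeB j i) = true))

theorem Rel.dist_eq {X P s z my mw mz X' P' s' z' my' mw' mz' : ℝ}
    (h1 : Rel X P s z my mw mz) (h2 : Rel X' P' s' z' my' mw' mz') (i j : Fin 7)
    (h : G7.Adj i j) :
    dist (conf X P s z my mw mz i) (conf X P s z my mw mz j) =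
      dist (conf X' P' s' z' my' mw' mz' i) (conf X' P' s' z' my' mw' mz' j) := by
  have key : dist (conf X P s z my mw mz i) (conf X P s z my mw mz j) ^ 2 =
      dist (conf X' P' s' z' my' mw' mz' i) (conf X' P' s' z' my' mw' mz' j) ^ 2 := by
    have h' : (edgeB i j || edgeB j i) = true := h
    rw [Bool.or_eq_true] at h'
    rcases h' with h' | h'
    · exact Rel.dist_eq_aux h1 h2 i j h'
    · rw [dist_comm, dist_comm (conf X' P' s' z' my' mw' mz' i)]
      exact Rel.dist_eq_aux h1 h2 j i h'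
  exact (pow_left_inj₀ dist_nonneg dist_nonneg two_ne_zero).1 key

/-- the placement -/
def p7 : Fin 7 → E 3 := conf 0 4 1 1 (-5) 20 0

theorem rel0 : Rel 0 4 1 1 (-5) 20 0 := by
  constructor <;> norm_num

theorem std_zero : std 0 = p7 := by
  obtain ⟨e1, e2, e3, e4, e5⟩ := rel_unique rel0
  have e6 : fm 0 = 0 := by simp [fm]
  unfold std p7
  rw [show (0 : ℝ) ^ 2 = 0 by norm_num, ← e1, ← e2, ← e3, ← e4, ← e5, e6]

theorem std_mem {x : ℝ} (hx : x ∈ Dom) (i j : Fin 7) (h : G7.Adj i j) :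
    dist (std x i) (std x j) = dist (p7 i) (p7 j) :=
  Rel.dist_eq (rel_std hx) rel0 i j h

theorem local_unique (q : Fin 7 → E 3)
    (hq : ∀ i j, G7.Adj i j → dist (q i) (q j) = dist (p7 i) (p7 j))
    (h12 : 0 < dist (q 1) (q 2)) (h12' : dist (q 1) (q 2) ^ 2 < 8)
    (h34 : |dist (q 3) (q 4) ^ 2 - 25| < 12 / 100) (h35 : dist (q 3) (q 5) ^ 2 < 5661) :
    ∃ T : E 3 ≃ᵢ E 3, ∃ x ∈ Dom, ∀ i, T (q i) = std x i := by
  obtain ⟨a0, a1, a2, a3, a4, a5, a6, a7, a8, a9, a10, a11, a12, a13⟩ := rel0.edges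
  change dist (p7 0) (p7 1) ^ 2 = 2 at a0
  change dist (p7 0) (p7 2) ^ 2 = 2 at a1
  change dist (p7 0) (p7 3) ^ 2 = 36 at a2
  change dist (p7 0) (p7 4) ^ 2 = 25 at a3
  change dist (p7 0) (p7 5) ^ 2 = 5625 at a4
  change dist (p7 1) (p7 3) ^ 2 = 38 at a5
  change dist (p7 1) (p7 4) ^ 2 = 19 at a6
  change dist (p7 1) (p7 5) ^ 2 = 5747 at a7
  change dist (p7 2) (p7 3) ^ 2 = 38 at a8
  change dist (p7 2) (p7 4) ^ 2 = 19 at a9
  change dist (p7 2) (p7 5) ^ 2 = 5747 at a10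
  change dist (p7 6) (p7 3) ^ 2 = 521 at a11
  change dist (p7 6) (p7 4) ^ 2 = 320 at a12
  change dist (p7 6) (p7 5) ^ 2 = 8900 at a13
  rw [← hq 0 1 (by decide)] at a0
  rw [← hq 0 2 (by decide)] at a1
  rw [← hq 0 3 (by decide)] at a2
  rw [← hq 0 4 (by decide)] at a3
  rw [← hq 0 5 (by decide)] at a4
  rw [← hq 1 3 (by decide)] at a5
  rw [← hq 1 4 (by decide)] at a6
  rw [← hq 1 5 (by decide)] at a7
  rw [← hq 2 3 (by decide)] at a8
  rw [← hq 2 4 (by decide)] at a9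
  rw [← hq 2 5 (by decide)] at a10
  rw [← hq 6 3 (by decide)] at a11
  rw [← hq 6 4 (by decide)] at a12
  rw [← hq 6 5 (by decide)] at a13
  obtain ⟨T, s, z, hs, hz, hsz, t0, t10, t11, t12, t20, t21, t22, t30, t31, t32⟩ :=
    frame2 (q 0) (q 1) (q 2) (q 3) a0 a1 a2 a5 a8 h12 h12'
  rw [← T.dist_eq, dist_sq, t0 0, t0 1, t0 2] at a3 a4
  rw [← T.dist_eq, dist_sq, t10, t11, t12] at a6 a7
  rw [← T.dist_eq, dist_sq, t20, t21, t22] at a9 a10
  rw [← T.dist_eq, dist_sq, t30, t31, t32] at a11 h34 h35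
  rw [← T.dist_eq, dist_sq] at a12 a13
  have q0 : T (q 0) = pt 0 0 0 := by rw [pt_eta (T (q 0)), t0 0, t0 1, t0 2]
  have q1 : T (q 1) = pt s 0 z := by rw [pt_eta (T (q 1)), t10, t11, t12]
  have q2 : T (q 2) = pt s 0 (-z) := by rw [pt_eta (T (q 2)), t20, t21, t22]
  have q3 : T (q 3) = pt 0 6 0 := by rw [pt_eta (T (q 3)), t30, t31, t32]
  have q4 := pt_eta (T (q 4))
  have q5 := pt_eta (T (q 5))
  have q6 := pt_eta (T (q 6))
  generalize (T (q 4)) 0 = w2 at *
  generalize (T (q 4)) 1 = y2 at *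
  generalize (T (q 4)) 2 = t2 at *
  generalize (T (q 5)) 0 = w3 at *
  generalize (T (q 5)) 1 = y3 at *
  generalize (T (q 5)) 2 = t3 at *
  generalize (T (q 6)) 0 = mw at *
  generalize (T (q 6)) 1 = my at *
  generalize (T (q 6)) 2 = mz at *
  obtain ⟨e1, e2, e3, e4, hrel, hX0, hX1⟩ := rel_of_eqs (w2 := w2) (y2 := y2) (t2 := t2)
    (w3 := w3) (y3 := y3) (t3 := t3) (mw := mw) (my := my) (mz := mz) hs hz hsz
    (by linarith only [a3]) (by linarith only [a6]) (by linarith only [a9])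
    (by linarith only [a4]) (by linarith only [a7]) (by linarith only [a10])
    (by
      have e : w2 ^ 2 + (6 - y2) ^ 2 + t2 ^ 2 - 25 =
        (0 - w2) ^ 2 + (6 - y2) ^ 2 + (0 - t2) ^ 2 - 25 := by ring
      rw [e]; exact h34)
    (by linarith only [h35]) (by linarith only [a11]) a12 a13
  obtain ⟨x, hx, hc⟩ := rel_param hrel hX0 hX1
  refine ⟨T, x, hx, fun i => ?_⟩
  rw [← hc]
  subst e1 e2 e3 e4
  have e5 : 3 - (3 - y2) = y2 := by ring
  fin_cases i
  · exact q0
  · exact q1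
  · exact q2
  · exact q3
  · show T (q 4) = pt w2 (3 - (3 - y2)) 0
    rw [e5]; exact q4
  · show T (q 5) = pt (-15 * w2) (15 * (3 - (3 - y2))) 0
    rw [e5]; exact q5
  · exact q6

/-- the point of the standard family with parameter `x` as a realization -/
def stdR (x : ℝ) (hx : x ∈ Dom) : Realization G7 p7 := ⟨std x, std_mem hx⟩

theorem dom_scale (y : Set.Ioo (-1 : ℝ) 1) : (y : ℝ) / 10 ∈ Dom := by
  obtain ⟨y, h1, h2⟩ := y
  constructor <;> simp only <;> linarith

/-- the curve of classes, parametrised by `(-1, 1)` -/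
def curve (y : Set.Ioo (-1 : ℝ) 1) : ConfigSpace G7 p7 :=
  cls G7 p7 (stdR ((y : ℝ) / 10) (dom_scale y))

theorem cls_continuous : Continuous (cls G7 p7) := continuous_quotient_mk'

theorem curve_continuous : Continuous curve := by
  unfold curve
  refine cls_continuous.comp ?_
  refine Continuous.subtype_mk ?_ _
  refine cont_std.comp_continuous (by fun_prop) ?_
  exact fun y => dom_scale y

/-- the invariant `|m N'|^2 - |m N|^2` -/
def inv (q : Realization G7 p7) : ℝ := dist (q.1 2) (q.1 6) ^ 2 - dist (q.1 1) (q.1 6) ^ 2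

theorem inv_congr (q q' : Realization G7 p7) (h : (congruence G7 p7).r q q') : inv q = inv q' := by
  obtain ⟨T, hT⟩ := h
  unfold inv
  rw [hT 1, hT 2, hT 6, T.dist_eq, T.dist_eq]

theorem continuous_eval (i : Fin 7) : Continuous fun q : Realization G7 p7 => q.1 i :=
  (continuous_apply i).comp continuous_subtype_val

theorem inv_continuous : Continuous inv := by
  unfold inv
  exact (((continuous_eval 2).dist (continuous_eval 6)).pow 2).sub
    (((continuous_eval 1).dist (continuous_eval 6)).pow 2)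

/-- the invariant on the quotient -/
def invC : ConfigSpace G7 p7 → ℝ := Quotient.lift inv inv_congr

theorem invC_continuous : Continuous invC := inv_continuous.quotient_lift _

theorem inv_std {x : ℝ} (hx : x ∈ Dom) : inv (stdR x hx) = 4 * fh x := by
  obtain ⟨_, _, _, _, _, h1, h2⟩ := (rel_std hx).nonedges
  show dist (std x 2) (std x 6) ^ 2 - dist (std x 1) (std x 6) ^ 2 = 4 * fh x
  unfold std fh
  rw [h1, h2]
  ring

theorem invC_curve (y : Set.Ioo (-1 : ℝ) 1) : invC (curve y) = 4 * fh ((y : ℝ) / 10) :=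
  inv_std (dom_scale y)

theorem curve_isEmbedding : Topology.IsEmbedding curve := by
  refine Topology.IsEmbedding.of_comp curve_continuous invC_continuous ?_
  have hc : Continuous (invC ∘ curve) := invC_continuous.comp curve_continuous
  have hm : StrictMono (invC ∘ curve) := by
    intro y y' h
    simp only [Function.comp, invC_curve]
    have h' : (y : ℝ) / 10 < (y' : ℝ) / 10 := by
      have : (y : ℝ) < y' := h
      linarith
    have := fh_strictMono (dom_scale y) (dom_scale y') h'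
    linarith
  refine hm.isEmbedding_of_ordConnected ?_
  have : PreconnectedSpace (Set.Ioo (-1 : ℝ) 1) :=
    Subtype.preconnectedSpace isPreconnected_Ioo
  exact (isPreconnected_range hc).ordConnected

/-- the local conditions -/
def Near (q : Realization G7 p7) : Prop :=
  0 < dist (q.1 1) (q.1 2) ∧ dist (q.1 1) (q.1 2) ^ 2 < 8 ∧
    |dist (q.1 3) (q.1 4) ^ 2 - 25| < 12 / 100 ∧ dist (q.1 3) (q.1 5) ^ 2 < 5661

theorem near_congr (q q' : Realization G7 p7) (h : (congruence G7 p7).r q q') (hq : Near q) :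
    Near q' := by
  obtain ⟨T, hT⟩ := h
  unfold Near at *
  rw [hT 1, hT 2, hT 3, hT 4, hT 5, T.dist_eq, T.dist_eq, T.dist_eq]
  exact hq

theorem near_isOpen : IsOpen {q : Realization G7 p7 | Near q} := by
  have c12 := (continuous_eval 1).dist (continuous_eval 2)
  have c34 := (continuous_eval 3).dist (continuous_eval 4)
  have c35 := (continuous_eval 3).dist (continuous_eval 5)
  refine (isOpen_lt continuous_const c12).inter ((isOpen_lt (c12.pow 2) continuous_const).inter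
    ((isOpen_lt ((c34.pow 2).sub continuous_const).abs continuous_const).inter
      (isOpen_lt (c35.pow 2) continuous_const)))

theorem near_self : Near (self G7 p7) := by
  obtain ⟨h12, h34, h35, _, _, _, _⟩ := rel0.nonedges
  change dist (p7 1) (p7 2) ^ 2 = 4 * 1 ^ 2 at h12
  change dist (p7 3) (p7 4) ^ 2 = 25 + 12 * 0 at h34
  change dist (p7 3) (p7 5) ^ 2 = 5121 + 180 * 0 at h35
  refine ⟨?_, ?_, ?_, ?_⟩
  · show 0 < dist (p7 1) (p7 2)
    have : dist (p7 1) (p7 2) ≠ 0 := by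
      intro h; rw [h] at h12; norm_num at h12
    positivity
  · show dist (p7 1) (p7 2) ^ 2 < 8
    rw [h12]; norm_num
  · show |dist (p7 3) (p7 4) ^ 2 - 25| < 12 / 100
    rw [h34]; norm_num
  · show dist (p7 3) (p7 5) ^ 2 < 5661
    rw [h35]; norm_num

theorem curve_range_nhds : Set.range curve ∈ 𝓝 (cls G7 p7 (self G7 p7)) := by
  have hO : IsOpen (cls G7 p7 '' {q | Near q}) := by
    refine (isQuotientMap_quotient_mk' (s := congruence G7 p7)).isOpen_preimage.1 ?_
    convert near_isOpen using 1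
    ext q
    constructor
    · rintro ⟨q', hq', h⟩
      exact near_congr q' q (Quotient.exact h) hq'
    · intro hq
      exact ⟨q, hq, rfl⟩
  refine Filter.mem_of_superset (hO.mem_nhds ⟨self G7 p7, near_self, rfl⟩) ?_
  rintro _ ⟨q, ⟨h1, h2, h3, h4⟩, rfl⟩
  obtain ⟨T, x, hx, hT⟩ := local_unique q.1 q.2 h1 h2 h3 h4
  have hx10 : 10 * x ∈ Set.Ioo (-1 : ℝ) 1 := by
    obtain ⟨a, b⟩ := hx
    constructor <;> linarith
  refine ⟨⟨10 * x, hx10⟩, ?_⟩
  refine Quotient.sound ?_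
  refine ⟨T.symm, fun i => ?_⟩
  show q.1 i = T.symm (std (10 * x / 10) i)
  rw [mul_div_cancel_left₀ x (by norm_num : (10 : ℝ) ≠ 0), ← hT i, T.symm_apply_apply]

theorem curve_zero (h : (0 : ℝ) ∈ Set.Ioo (-1 : ℝ) 1) : curve ⟨0, h⟩ = cls G7 p7 (self G7 p7) := by
  unfold curve
  congr 1
  apply Subtype.ext
  show std (0 / 10) = p7
  rw [zero_div, std_zero]

/-- the chart -/
def chart : IntervalChart G7 p7 where
  U := Set.range curve
  nhd := curve_range_nhds
  φ := curve_isEmbedding.toHomeomorph.symm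
  center := by
    have h0 : (0 : ℝ) ∈ Set.Ioo (-1 : ℝ) 1 := by constructor <;> norm_num
    have : (⟨cls G7 p7 (self G7 p7), mem_of_mem_nhds curve_range_nhds⟩ : Set.range curve) =
        curve_isEmbedding.toHomeomorph ⟨0, h0⟩ := by
      apply Subtype.ext
      exact (curve_zero h0).symm
    rw [this, Homeomorph.symm_apply_apply]

theorem chart_apply (y : Set.Ioo (-1 : ℝ) 1) (h : curve y ∈ Set.range curve) :
    chart.φ ⟨curve y, h⟩ = y := by
  have : (⟨curve y, h⟩ : Set.range curve) = curve_isEmbedding.toHomeomorph y := Subtype.ext rfl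
  show curve_isEmbedding.toHomeomorph.symm ⟨curve y, h⟩ = y
  rw [this, Homeomorph.symm_apply_apply]

theorem half_mem (t : I) : (t : ℝ) / 2 ∈ Set.Ioo (-1 : ℝ) 1 := by
  obtain ⟨t, h0, h1⟩ := t
  constructor <;> simp only <;> linarith

/-- the expansive motion -/
def motion (t : I) : Realization G7 p7 := stdR ((t : ℝ) / 2 / 10) (dom_scale ⟨(t : ℝ) / 2, half_mem t⟩)

theorem cls_motion (t : I) : cls G7 p7 (motion t) = curve ⟨(t : ℝ) / 2, half_mem t⟩ := rfl

theorem motion_continuous : Continuous motion := by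
  unfold motion
  refine Continuous.subtype_mk ?_ _
  refine cont_std.comp_continuous (by fun_prop) ?_
  exact fun t => dom_scale ⟨(t : ℝ) / 2, half_mem t⟩

theorem motion_zero : motion 0 = self G7 p7 := by
  apply Subtype.ext
  show std (((0 : I) : ℝ) / 2 / 10) = p7
  rw [show (((0 : I) : ℝ) / 2 / 10) = 0 by simp, std_zero]

theorem std_dist_mono {x y : ℝ} (h0 : 0 ≤ x) (hxy : x ≤ y) (hx : x ∈ Dom) (hy : y ∈ Dom)
    (i j : Fin 7) : dist (std x i) (std x j) ≤ dist (std y i) (std y j) := by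
  obtain ⟨h12, h34, h35, h45, h06, h16, h26⟩ := std_dist_mono_aux h0 hxy hx hy
  have up : ∀ a b : Fin 7, dist (std x a) (std x b) ^ 2 ≤ dist (std y a) (std y b) ^ 2 →
      dist (std x a) (std x b) ≤ dist (std y a) (std y b) := fun a b h =>
    le_of_sq_le_sq h dist_nonneg
  have ed : ∀ a b : Fin 7, G7.Adj a b → dist (std x a) (std x b) ≤ dist (std y a) (std y b) :=
    fun a b h => ((std_mem hx a b h).trans (std_mem hy a b h).symm).le
  have main : ∀ a b : Fin 7, a < b → dist (std x a) (std x b) ≤ dist (std y a) (std y b) := by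
    intro a b
    exact match a, b with
    | 0, 0 => fun h => absurd h (by decide)
    | 0, 1 => fun _ => ed 0 1 (by decide)
    | 0, 2 => fun _ => ed 0 2 (by decide)
    | 0, 3 => fun _ => ed 0 3 (by decide)
    | 0, 4 => fun _ => ed 0 4 (by decide)
    | 0, 5 => fun _ => ed 0 5 (by decide)
    | 0, 6 => fun _ => up 0 6 h06
    | 1, 0 => fun h => absurd h (by decide)
    | 1, 1 => fun h => absurd h (by decide)
    | 1, 2 => fun _ => up 1 2 h12
    | 1, 3 => fun _ => ed 1 3 (by decide)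
    | 1, 4 => fun _ => ed 1 4 (by decide)
    | 1, 5 => fun _ => ed 1 5 (by decide)
    | 1, 6 => fun _ => up 1 6 h16
    | 2, 0 => fun h => absurd h (by decide)
    | 2, 1 => fun h => absurd h (by decide)
    | 2, 2 => fun h => absurd h (by decide)
    | 2, 3 => fun _ => ed 2 3 (by decide)
    | 2, 4 => fun _ => ed 2 4 (by decide)
    | 2, 5 => fun _ => ed 2 5 (by decide)
    | 2, 6 => fun _ => up 2 6 h26
    | 3, 0 => fun h => absurd h (by decide)
    | 3, 1 => fun h => absurd h (by decide)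
    | 3, 2 => fun h => absurd h (by decide)
    | 3, 3 => fun h => absurd h (by decide)
    | 3, 4 => fun _ => up 3 4 h34
    | 3, 5 => fun _ => up 3 5 h35
    | 3, 6 => fun _ => ed 3 6 (by decide)
    | 4, 0 => fun h => absurd h (by decide)
    | 4, 1 => fun h => absurd h (by decide)
    | 4, 2 => fun h => absurd h (by decide)
    | 4, 3 => fun h => absurd h (by decide)
    | 4, 4 => fun h => absurd h (by decide)
    | 4, 5 => fun _ => up 4 5 h45
    | 4, 6 => fun _ => ed 4 6 (by decide)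
    | 5, 0 => fun h => absurd h (by decide)
    | 5, 1 => fun h => absurd h (by decide)
    | 5, 2 => fun h => absurd h (by decide)
    | 5, 3 => fun h => absurd h (by decide)
    | 5, 4 => fun h => absurd h (by decide)
    | 5, 5 => fun h => absurd h (by decide)
    | 5, 6 => fun _ => ed 5 6 (by decide)
    | 6, 0 => fun h => absurd h (by decide)
    | 6, 1 => fun h => absurd h (by decide)
    | 6, 2 => fun h => absurd h (by decide)
    | 6, 3 => fun h => absurd h (by decide)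
    | 6, 4 => fun h => absurd h (by decide)
    | 6, 5 => fun h => absurd h (by decide)
    | 6, 6 => fun h => absurd h (by decide)
  rcases lt_trichotomy i j with h | h | h
  · exact main i j h
  · subst h; simp
  · rw [dist_comm, dist_comm (std y i)]
    exact main j i h

theorem motion_expansive : IsExpansive motion := by
  constructor
  · intro i j t t' h
    have h' : (t : ℝ) ≤ t' := h
    have h0 : (0 : ℝ) ≤ t := t.2.1
    exact std_dist_mono (by positivity) (by linarith) (dom_scale ⟨(t : ℝ) / 2, half_mem t⟩)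
      (dom_scale ⟨(t' : ℝ) / 2, half_mem t'⟩) i j
  · refine ⟨3, 4, 0, 1, ?_⟩
    obtain ⟨_, h1, _⟩ := (rel_std (dom_scale ⟨((0 : I) : ℝ) / 2, half_mem 0⟩)).nonedges
    obtain ⟨_, h2, _⟩ := (rel_std (dom_scale ⟨((1 : I) : ℝ) / 2, half_mem 1⟩)).nonedges
    intro h
    have h3 : dist ((motion 0).1 3) ((motion 0).1 4) ^ 2 =
      dist ((motion 1).1 3) ((motion 1).1 4) ^ 2 := by rw [h]
    have h4 := (h1.symm.trans h3).trans h2
    norm_num at h4

theorem motion_traces : TracesHalfBranch motion := by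
  have hinj : Function.Injective (fun t => cls G7 p7 (motion t)) := by
    intro t t' h
    have h1 : cls G7 p7 (motion t) = cls G7 p7 (motion t') := h
    rw [cls_motion, cls_motion] at h1
    have h2 : (t : ℝ) / 2 = (t' : ℝ) / 2 :=
      congrArg Subtype.val (curve_isEmbedding.injective h1)
    apply Subtype.ext
    linarith
  have hmem : ∀ t, cls G7 p7 (motion t) ∈ chart.U := by
    intro t
    rw [cls_motion]
    exact Set.mem_range_self _
  refine ⟨hinj, chart, hmem, Or.inl fun t ht => ?_⟩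
  have e : (⟨cls G7 p7 (motion t), hmem t⟩ : chart.U) =
      ⟨curve ⟨(t : ℝ) / 2, half_mem t⟩, Set.mem_range_self _⟩ := by
    apply Subtype.ext
    exact cls_motion t
  unfold IntervalChart.coord
  rw [e, chart_apply]
  have h0 : (0 : ℝ) < t := ht
  show 0 < (t : ℝ) / 2
  positivity

/-- the reflection in the plane of the vertices 0, 3, 4, 5, 6 -/
def reflFun (v : E 3) : E 3 := pt (v 0) (v 1) (-v 2)

theorem reflFun_invol (v : E 3) : reflFun (reflFun v) = v := by
  rw [pt_eta v]; simp [reflFun, pt]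

def refl3 : E 3 ≃ᵢ E 3 where
  toFun := reflFun
  invFun := reflFun
  left_inv := reflFun_invol
  right_inv := reflFun_invol
  isometry_toFun := by
    refine Isometry.of_dist_eq fun u v => ?_
    refine (pow_left_inj₀ dist_nonneg dist_nonneg two_ne_zero).1 ?_
    rw [dist_sq, dist_sq]
    simp [reflFun, pt]
    ring

theorem refl3_pt (a b c : ℝ) : refl3 (pt a b c) = pt a b (-c) := by
  show reflFun (pt a b c) = pt a b (-c)
  simp [reflFun, pt]

/-- the reflection as an element of the isometry group -/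
def reflI : Isom 3 := refl3

theorem refl3_mul : reflI * reflI = 1 := by
  have : refl3 * refl3 = 1 := by
    ext1 v
    exact reflFun_invol v
  exact this

theorem refl3_ne : reflI ≠ 1 := by
  intro h
  have h1 : refl3 (pt 0 0 1) = pt 0 0 1 := by
    have : refl3 = 1 := h
    rw [this]; rfl
  rw [refl3_pt] at h1
  have h2 := congrArg (fun v : E 3 => v 2) h1
  simp [pt] at h2
  norm_num at h2

/-- the group of order two generated by the reflection -/
def Gam : Subgroup (Isom 3) where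
  carrier := {g | g = 1 ∨ g = reflI}
  one_mem' := Or.inl rfl
  mul_mem' := by
    rintro a b (rfl | rfl) (rfl | rfl)
    · left; simp
    · right; simp
    · right; simp
    · left; exact refl3_mul
  inv_mem' := by
    rintro a (rfl | rfl)
    · left; simp
    · right; exact inv_eq_of_mul_eq_one_left refl3_mul

/-- the reflection as an element of the group -/
def rG : Gam := ⟨reflI, Or.inr rfl⟩

theorem gam_cases (g : Gam) : g = 1 ∨ g = rG := by
  obtain ⟨g, hg⟩ := g
  rcases hg with h | h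
  · left; exact Subtype.ext h
  · right; exact Subtype.ext h

theorem rG_mul : rG * rG = 1 := Subtype.ext refl3_mul

theorem rG_ne : rG ≠ 1 := fun h => refl3_ne (congrArg Subtype.val h)

/-- the automorphism exchanging the vertices 1 and 2 -/
def sw0 : G7 ≃g G7 where
  toEquiv := Equiv.swap 1 2
  map_rel_iff' := by intro a b; revert a b; decide

/-- the same, as an element of the automorphism group -/
def sw : GraphAut G7 := sw0

theorem sw_mul : sw * sw = 1 := by
  have : sw0 * sw0 = 1 := by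
    ext1 i
    show Equiv.swap 1 2 (Equiv.swap 1 2 i) = i
    rw [Equiv.swap_apply_self]
  exact this

open Classical in
/-- the homomorphism to the automorphism group -/
def theta : Gam →* GraphAut G7 :=
  MonoidHom.mk' (fun g => if g = 1 then 1 else sw) (by
    intro g h
    rcases gam_cases g with rfl | rfl <;> rcases gam_cases h with rfl | rfl
    · simp
    · simp
    · simp
    · rw [rG_mul, if_pos rfl, if_neg rG_ne, sw_mul])

theorem theta_rG : theta rG = sw := by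
  simp [theta, rG_ne]

theorem p7_symm : IsSymmetric Gam theta p7 := by
  intro g i
  rcases gam_cases g with rfl | rfl
  · rw [map_one]; rfl
  · rw [theta_rG]
    show refl3 (p7 i) = p7 (Equiv.swap 1 2 i)
    have h1 : (Equiv.swap (1 : Fin 7) 2) 0 = 0 := by decide
    have h2 : (Equiv.swap (1 : Fin 7) 2) 1 = 2 := by decide
    have h3 : (Equiv.swap (1 : Fin 7) 2) 2 = 1 := by decide
    have h4 : (Equiv.swap (1 : Fin 7) 2) 3 = 3 := by decide
    have h5 : (Equiv.swap (1 : Fin 7) 2) 4 = 4 := by decide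
    have h6 : (Equiv.swap (1 : Fin 7) 2) 5 = 5 := by decide
    have h7 : (Equiv.swap (1 : Fin 7) 2) 6 = 6 := by decide
    fin_cases i
    · show refl3 (pt 0 0 0) = p7 (Equiv.swap (1 : Fin 7) 2 0)
      rw [h1, refl3_pt]; show _ = pt 0 0 0; norm_num
    · show refl3 (pt 1 0 1) = p7 (Equiv.swap (1 : Fin 7) 2 1)
      rw [h2, refl3_pt]; rfl
    · show refl3 (pt 1 0 (-1)) = p7 (Equiv.swap (1 : Fin 7) 2 2)
      rw [h3, refl3_pt]; show _ = pt 1 0 1; norm_num
    · show refl3 (pt 0 6 0) = p7 (Equiv.swap (1 : Fin 7) 2 3)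
      rw [h4, refl3_pt]; show _ = pt 0 6 0; norm_num
    · show refl3 (pt 4 (3 - 0) 0) = p7 (Equiv.swap (1 : Fin 7) 2 4)
      rw [h5, refl3_pt]; show _ = pt 4 (3 - 0) 0; norm_num
    · show refl3 (pt (-15 * 4) (15 * (3 - 0)) 0) = p7 (Equiv.swap (1 : Fin 7) 2 5)
      rw [h6, refl3_pt]; show _ = pt (-15 * 4) (15 * (3 - 0)) 0; norm_num
    · show refl3 (pt 20 (-5) 0) = p7 (Equiv.swap (1 : Fin 7) 2 6)
      rw [h7, refl3_pt]; show _ = pt 20 (-5) 0; norm_num

theorem p7_inj : Function.Injective p7 := by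
  intro i j h
  have h0 := congrArg (fun v : E 3 => v 0) h
  have h1 := congrArg (fun v : E 3 => v 1) h
  have h2 := congrArg (fun v : E 3 => v 2) h
  fin_cases i <;> fin_cases j <;> first
    | rfl
    | (exfalso; simp [p7, conf, pt] at h0 h1 h2; done)
    | (exfalso; simp [p7, conf, pt] at h0 h1 h2; norm_num at h0; done)
    | (exfalso; simp [p7, conf, pt] at h0 h1 h2; norm_num at h2)

theorem p7_span : IsSpanning p7 := by
  intro n c h
  have h0 := h 0
  have h1 := h 1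
  have h2 := h 2
  have h3 := h 3
  simp [p7, conf, pt, Fin.sum_univ_three] at h0 h1 h2 h3
  funext k
  fin_cases k
  · show n 0 = 0
    linarith
  · show n 1 = 0
    linarith
  · show n 2 = 0
    linarith

theorem motion_not_symm : ¬ PreservesSymmetry Gam theta motion := by
  rintro ⟨T, _, _, h⟩
  have h1 := h 1 rG
  have e6 := h1 6
  have e1 := h1 1
  rw [theta_rG] at e6 e1
  have s6 : GraphAut.app sw 6 = 6 := by
    show Equiv.swap (1 : Fin 7) 2 6 = 6
    decide
  have s1 : GraphAut.app sw 1 = 2 := by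
    show Equiv.swap (1 : Fin 7) 2 1 = 2
    decide
  rw [s6] at e6
  rw [s1] at e1
  -- the reflection maps the images of 1 and 6 to the images of 2 and 6
  have e6' : refl3 (T 1 ((motion 1).1 6)) = T 1 ((motion 1).1 6) := e6
  have e1' : refl3 (T 1 ((motion 1).1 1)) = T 1 ((motion 1).1 2) := e1
  have hd : dist ((motion 1).1 2) ((motion 1).1 6) = dist ((motion 1).1 1) ((motion 1).1 6) := by
    calc dist ((motion 1).1 2) ((motion 1).1 6)
        = dist (T 1 ((motion 1).1 2)) (T 1 ((motion 1).1 6)) := ((T 1).dist_eq _ _).symm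
      _ = dist (refl3 (T 1 ((motion 1).1 1))) (refl3 (T 1 ((motion 1).1 6))) := by rw [e1', e6']
      _ = dist (T 1 ((motion 1).1 1)) (T 1 ((motion 1).1 6)) := refl3.dist_eq _ _
      _ = dist ((motion 1).1 1) ((motion 1).1 6) := (T 1).dist_eq _ _
  have h2 := inv_std (dom_scale ⟨((1 : I) : ℝ) / 2, half_mem 1⟩)
  have h3 : inv (motion 1) = 0 := by
    unfold inv; rw [hd, sub_self]
  have h4 : fh (((1 : I) : ℝ) / 2 / 10) = 0 := by
    have : inv (motion 1) = 4 * fh (((1 : I) : ℝ) / 2 / 10) := h2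
    linarith
  have h5 : fh 0 = 0 := by simp [fh, fm]
  have h6 := fh_lt (x := 0) (y := ((1 : I) : ℝ) / 2 / 10) le_rfl (by norm_num) zero_dom
    (dom_scale ⟨((1 : I) : ℝ) / 2, half_mem 1⟩)
  linarith

/-- There is a framework `(G, p)` in Euclidean 3-space with seven distinct vertices, not all in one
plane, that is symmetric with respect to a finite group of isometries, is a one-degree-of-freedom
mechanism, and has an expansive motion that does not preserve the symmetry. -/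
theorem result :
    ∃ (G : SimpleGraph (Fin 7)) (p : Fin 7 → E 3) (Γ : Subgroup (Isom 3)) (θ : Γ →* GraphAut G),
      Finite Γ ∧ IsSymmetric Γ θ p ∧ Function.Injective p ∧ IsSpanning p ∧ IsOneDOF G p ∧
      ∃ P : I → Realization G p, IsExpansiveMotion G p P ∧ ¬ PreservesSymmetry Γ θ P := by
  refine ⟨G7, p7, Gam, theta, ?_, p7_symm, p7_inj, p7_span, ⟨chart⟩, motion,
    ⟨⟨motion_continuous, motion_zero⟩, motion_expansive, motion_traces⟩, motion_not_symm⟩
  have : Finite ({1, reflI} : Set (Isom 3)) := Set.toFinite _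
  exact this

end

end Pool.Agent.Results.MP_e3c312_co.CuspSymmetry
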